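import Mathlib
import Pool.Agent.W882.Nip3.Defs

/-!
# Two quadratic equations and wild formulas

`Rel e u`: the equations `e X ^ 2 = 2 W ^ 2 - Z ^ 2`, `u e Y ^ 2 = Z ^ 2 - W ^ 2` have a solution
with `(Z, W) ≠ (0, 0)`. If `e` has odd order and `Rel e u` then `u` has odd order. If conversely
`Rel` holds for the products over sets `A ⊆ B` of elements `x k`, with infinitely many discrete
orders, at which exactly one of them has odd order, then the field is wild.
-/

set_option autoImplicit false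

namespace Pool.Agent.J4.H15.MF

open Pool.Agent.W882.Nip3

/-- The field `K` is tame: it is NIP, or NIP_n for some `n`, or NTP2. -/
def Tame (K : Type) [Field K] [FirstOrder.Ring.CompatibleRing K] : Prop :=
  NIPField K ∨ (∃ n, NIPnField n K) ∨ NTP2Field K

/-- A discrete order function on `K`: `ord (x y) = ord x + ord y` and
`min (ord x) (ord y) ≤ ord (x + y)` for nonzero `x`, `y`, `x + y`. -/
structure OrdFn (K : Type*) [Field K] where
  ord : K → ℤ
  mul : ∀ x y, x ≠ 0 → y ≠ 0 → ord (x * y) = ord x + ord y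
  add : ∀ x y, x ≠ 0 → y ≠ 0 → x + y ≠ 0 → min (ord x) (ord y) ≤ ord (x + y)

namespace OrdFn

variable {K : Type*} [Field K] (v : OrdFn K)

theorem one : v.ord 1 = 0 := by
  have := v.mul 1 1 one_ne_zero one_ne_zero
  rw [mul_one] at this
  omega

theorem neg_one : v.ord (-1) = 0 := by
  have := v.mul (-1) (-1) (by simp) (by simp)
  rw [neg_mul_neg, mul_one, v.one] at this
  omega

theorem neg (x : K) : v.ord (-x) = v.ord x := by
  by_cases hx : x = 0
  · rw [hx, neg_zero]
  · have := v.mul (-1) x (by simp) hx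
    rw [neg_one_mul, v.neg_one, zero_add] at this
    exact this

theorem inv {x : K} (hx : x ≠ 0) : v.ord x⁻¹ = - v.ord x := by
  have := v.mul x x⁻¹ hx (inv_ne_zero hx)
  rw [mul_inv_cancel₀ hx, v.one] at this
  omega

theorem pow {x : K} (hx : x ≠ 0) (n : ℕ) : v.ord (x ^ n) = n * v.ord x := by
  induction n with
  | zero => simp [v.one]
  | succ n ih =>
    rw [pow_succ, v.mul _ _ (pow_ne_zero _ hx) hx, ih]
    push_cast
    ring

theorem sq {x : K} (hx : x ≠ 0) : v.ord (x ^ 2) = 2 * v.ord x := by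
  rw [v.pow hx]
  norm_cast

theorem prod {ι : Type*} (s : Finset ι) (f : ι → K) (h : ∀ i ∈ s, f i ≠ 0) :
    v.ord (∏ i ∈ s, f i) = ∑ i ∈ s, v.ord (f i) := by
  classical
  induction s using Finset.induction_on with
  | empty => simp [v.one]
  | insert a s ha ih =>
    rw [Finset.prod_insert ha, Finset.sum_insert ha, v.mul, ih]
    · exact fun i hi => h i (Finset.mem_insert_of_mem hi)
    · exact h a (Finset.mem_insert_self _ _)
    · exact Finset.prod_ne_zero_iff.2 fun i hi => h i (Finset.mem_insert_of_mem hi)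

theorem sub (x y : K) (hx : x ≠ 0) (hy : y ≠ 0) (hxy : x - y ≠ 0) :
    min (v.ord x) (v.ord y) ≤ v.ord (x - y) := by
  have := v.add x (-y) hx (neg_ne_zero.2 hy) (by rwa [← sub_eq_add_neg])
  rwa [v.neg, ← sub_eq_add_neg] at this

/-- the order of a sum of elements of different orders -/
theorem add_of_lt {x y : K} (hx : x ≠ 0) (hy : y ≠ 0) (h : v.ord x < v.ord y) :
    x + y ≠ 0 ∧ v.ord (x + y) = v.ord x := by
  have h0 : x + y ≠ 0 := by
    intro h0
    rw [eq_neg_of_add_eq_zero_left h0, v.neg] at h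
    exact lt_irrefl _ h
  refine ⟨h0, le_antisymm ?_ ?_⟩
  · have := v.sub (x + y) y h0 hy (by simpa using hx)
    rw [add_sub_cancel_right] at this
    rcases min_le_iff.1 this with h1 | h1
    · exact h1
    · omega
  · have := v.add x y hx hy h0
    rw [min_eq_left h.le] at this
    exact this

end OrdFn

/-- the relation -/
def Rel {K : Type*} [Field K] (e u : K) : Prop :=
  ∃ X Y Z W : K, ¬ (Z = 0 ∧ W = 0) ∧ e * X ^ 2 = 2 * W ^ 2 - Z ^ 2 ∧
    u * e * Y ^ 2 = Z ^ 2 - W ^ 2

section Rel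

variable {K : Type*} [Field K]

theorem Rel.sq {e u c d : K} (h : Rel e u) (hc : c ≠ 0) (hd : d ≠ 0) :
    Rel (e * c ^ 2) (u * d ^ 2) := by
  obtain ⟨X, Y, Z, W, h0, h1, h2⟩ := h
  refine ⟨X / c, Y / (c * d), Z, W, h0, ?_, ?_⟩
  · rw [← h1]; field_simp
  · rw [← h2]; field_simp

theorem Rel.odd {e u : K} (h : Rel e u) (v : OrdFn K) (he : e ≠ 0) (ho : Odd (v.ord e)) :
    u ≠ 0 ∧ Odd (v.ord u) := by
  obtain ⟨X, Y, Z, W, h0, h1, h2⟩ := h
  -- squares have even order
  have hsq : ∀ x : K, x ≠ 0 → Even (v.ord (x ^ 2)) := fun x hx => by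
    rw [v.sq hx]; exact even_two_mul _
  have hodd : ∀ x a : K, x ≠ 0 → a ≠ 0 → Odd (v.ord a) → Odd (v.ord (a * x ^ 2)) := by
    intro x a hx ha h
    rw [v.mul _ _ ha (pow_ne_zero _ hx)]
    exact h.add_even (hsq x hx)
  have hne : ∀ x : K, Even (v.ord x) → ¬ Odd (v.ord x) := fun x => Int.not_odd_iff_even.2
  have hW : W ^ 2 = e * X ^ 2 + u * e * Y ^ 2 := by rw [h1, h2]; ring
  have hZ : Z ^ 2 = e * X ^ 2 + 2 * (u * e * Y ^ 2) := by rw [h1, h2]; ring
  -- `X ≠ 0`, `u ≠ 0`, `Y ≠ 0`
  have hu : u * e * Y ^ 2 ≠ 0 := by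
    intro h
    rw [h] at hW
    rw [h] at hZ
    by_cases hX : X = 0
    · rw [hX] at hW hZ
      apply h0
      constructor
      · simpa using hZ
      · simpa using hW
    · rw [add_zero] at hW
      have hW0 : W ≠ 0 := by
        rintro rfl
        have := mul_ne_zero he (pow_ne_zero 2 hX)
        rw [← hW] at this
        simp at this
      exact hne _ (hsq W hW0) (hW ▸ hodd X e hX he ho)
  have hu0 : u ≠ 0 := by
    rintro rfl
    simp at hu
  have hY0 : Y ≠ 0 := by
    rintro rfl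
    simp at hu
  refine ⟨hu0, ?_⟩
  by_contra hu1
  rw [Int.not_odd_iff_even] at hu1
  have hue : Odd (v.ord (u * e)) := by
    rw [v.mul _ _ hu0 he]
    exact hu1.add_odd ho
  have hL2 : Odd (v.ord (u * e * Y ^ 2)) := hodd Y _ hY0 (mul_ne_zero hu0 he) hue
  by_cases hX : X = 0
  · rw [hX] at hW
    have hW' : W ^ 2 = u * e * Y ^ 2 := by rw [hW]; ring
    have hW0 : W ≠ 0 := by
      rintro rfl
      rw [← hW'] at hu
      simp at hu
    exact hne _ (hsq W hW0) (hW' ▸ hL2)
  have hL1 : Odd (v.ord (e * X ^ 2)) := hodd X _ hX he ho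
  have he0 : e * X ^ 2 ≠ 0 := mul_ne_zero he (pow_ne_zero 2 hX)
  rcases lt_trichotomy (v.ord (e * X ^ 2)) (v.ord (u * e * Y ^ 2)) with hlt | heq | hlt
  · obtain ⟨h3, h4⟩ := v.add_of_lt he0 hu hlt
    rw [← hW] at h3 h4
    have hW0 : W ≠ 0 := by
      rintro rfl
      simp at h3
    exact hne _ (hsq W hW0) (h4 ▸ hL1)
  · -- equal orders
    set m := v.ord (e * X ^ 2) with hm
    have key : ∀ x : K, x ≠ 0 → m ≤ v.ord (x ^ 2) → m + 1 ≤ v.ord (x ^ 2) := by
      intro x hx hle
      rcases lt_or_eq_of_le hle with h5 | h5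
      · exact h5
      · exact absurd (h5 ▸ hL1) (hne _ (hsq x hx))
    have hWm : W ≠ 0 → m + 1 ≤ v.ord (W ^ 2) := by
      intro hW0
      apply key W hW0
      have := v.add _ _ he0 hu (by rw [← hW]; exact pow_ne_zero 2 hW0)
      rw [← hW, ← heq, min_self] at this
      exact this
    have hZm : Z ≠ 0 → m + 1 ≤ v.ord (Z ^ 2) := by
      intro hZ0
      apply key Z hZ0
      by_cases h5 : e * X ^ 2 + u * e * Y ^ 2 = 0
      · have h6 : Z ^ 2 = u * e * Y ^ 2 := by rw [hZ]; linear_combination h5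
        rw [h6, ← heq]
      · have h6 := v.add _ _ he0 hu h5
        rw [← heq, min_self] at h6
        have h7 : Z ^ 2 = (e * X ^ 2 + u * e * Y ^ 2) + u * e * Y ^ 2 := by rw [hZ]; ring
        have := v.add _ _ h5 hu (by rw [← h7]; exact pow_ne_zero 2 hZ0)
        rw [← h7, ← heq] at this
        exact le_trans (le_min h6 le_rfl) this
    -- the difference
    have h8 : m + 1 ≤ v.ord (u * e * Y ^ 2) := by
      rw [h2]
      by_cases hZ0 : Z = 0
      · have hW0 : W ≠ 0 := fun h => h0 ⟨hZ0, h⟩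
        rw [hZ0]
        have : (0 : K) ^ 2 - W ^ 2 = - W ^ 2 := by ring
        rw [this, v.neg]
        exact hWm hW0
      · by_cases hW0 : W = 0
        · rw [hW0]
          have : Z ^ 2 - (0 : K) ^ 2 = Z ^ 2 := by ring
          rw [this]
          exact hZm hZ0
        · have := v.sub _ _ (pow_ne_zero 2 hZ0) (pow_ne_zero 2 hW0) (by rw [← h2]; exact hu)
          exact le_trans (le_min (hZm hZ0) (hWm hW0)) this
    omega
  · obtain ⟨h3, h4⟩ := v.add_of_lt hu he0 hlt
    rw [add_comm, ← hW] at h3 h4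
    have hW0 : W ≠ 0 := by
      rintro rfl
      simp at h3
    exact hne _ (hsq W hW0) (h4 ▸ hL2)

end Rel

/-! ### Formulas -/

open FirstOrder FirstOrder.Ring FirstOrder.Language

/-- the formula `Rel (e, u)` for polynomials `e`, `u` -/
noncomputable def Pform {α : Type} (e u : FreeCommRing α) : Language.ring.Formula α :=
  let i : FreeCommRing α →+* FreeCommRing (α ⊕ Fin 4) :=
    FreeCommRing.lift (fun a => FreeCommRing.of (Sum.inl a))
  let y : Fin 4 → FreeCommRing (α ⊕ Fin 4) := fun j => FreeCommRing.of (Sum.inr j)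
  Formula.iExs (Fin 4)
    (∼ ((Term.equal (termOfFreeCommRing (y 2)) (termOfFreeCommRing 0)) ⊓
        (Term.equal (termOfFreeCommRing (y 3)) (termOfFreeCommRing 0))) ⊓
      ((Term.equal (termOfFreeCommRing (i e * y 0 ^ 2))
          (termOfFreeCommRing (2 * y 3 ^ 2 - y 2 ^ 2))) ⊓
        (Term.equal (termOfFreeCommRing (i u * i e * y 1 ^ 2))
          (termOfFreeCommRing (y 2 ^ 2 - y 3 ^ 2)))))

theorem realize_Pform {K : Type} [Field K] [CompatibleRing K] {α : Type}
    (e u : FreeCommRing α) (v : α → K) :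
    (Pform e u).Realize v ↔ Rel (FreeCommRing.lift v e) (FreeCommRing.lift v u) := by
  unfold Pform Rel
  have hi : ∀ (w : Fin 4 → K) (p : FreeCommRing α),
      FreeCommRing.lift (Sum.elim v w) (FreeCommRing.lift
        (fun a => FreeCommRing.of (Sum.inl a : α ⊕ Fin 4)) p) = FreeCommRing.lift v p := by
    intro w p
    have : (FreeCommRing.lift (Sum.elim v w)).comp (FreeCommRing.lift
        (fun a => FreeCommRing.of (Sum.inl a : α ⊕ Fin 4))) = FreeCommRing.lift v := by
      ext a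
      simp
    rw [← this]
    rfl
  simp only [Formula.realize_iExs, Formula.realize_inf, Formula.realize_not,
    Formula.realize_equal, realize_termOfFreeCommRing, map_mul, map_sub, map_pow, map_zero,
    FreeCommRing.lift_of, Sum.elim_inr, map_ofNat, hi]
  constructor
  · rintro ⟨w, h0, h1, h2⟩
    exact ⟨w 0, w 1, w 2, w 3, h0, h1, h2⟩
  · rintro ⟨X, Y, Z, W, h0, h1, h2⟩
    exact ⟨![X, Y, Z, W], by simpa using h0, by simpa using h1, by simpa using h2⟩

end Pool.Agent.J4.H15.MF
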