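import Mathlib
import Pool.Agent.J4.H15.MF.Logic

/-!
# Extensions of discrete orders

Extension to the field of fractions, and to a simple extension `K (θ)`, when the minimal polynomial
of `θ` has a simple root in the residue field.
-/

set_option autoImplicit false

namespace Pool.Agent.J4.H15.MF

open Polynomial

/-- extension to the fraction field -/
theorem exists_ordFn {R K : Type*} [CommRing R] [IsDomain R] [Field K] [Algebra R K]
    [IsFractionRing R K] (o : R → ℤ) (hmul : ∀ x y, x ≠ 0 → y ≠ 0 → o (x * y) = o x + o y)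
    (hadd : ∀ x y, x ≠ 0 → y ≠ 0 → x + y ≠ 0 → min (o x) (o y) ≤ o (x + y)) :
    ∃ v : OrdFn K, ∀ r : R, r ≠ 0 → v.ord (algebraMap R K r) = o r := by
  have hinj : Function.Injective (algebraMap R K) := IsFractionRing.injective R K
  have hex : ∀ x : K, ∃ a b : R, b ≠ 0 ∧ algebraMap R K a / algebraMap R K b = x := by
    intro x
    obtain ⟨a, b, hb, h⟩ := IsFractionRing.div_surjective (A := R) x
    exact ⟨a, b, nonZeroDivisors.ne_zero hb, h⟩
  choose n d hd hx using hex
  have hn : ∀ x, x ≠ 0 → n x ≠ 0 := by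
    intro x hx0 h
    have := hx x
    rw [h, map_zero, zero_div] at this
    exact hx0 this.symm
  have h0 : ∀ r : R, r ≠ 0 → algebraMap R K r ≠ 0 := fun r hr => by
    rwa [Ne, map_eq_zero_iff _ hinj]
  have key : ∀ (x : K) (a b : R), a ≠ 0 → b ≠ 0 → x = algebraMap R K a / algebraMap R K b →
      o (n x) - o (d x) = o a - o b := by
    intro x a b ha hb h
    have hx0 : x ≠ 0 := by rw [h]; exact div_ne_zero (h0 a ha) (h0 b hb)
    have h1 : n x * b = a * d x := by
      apply hinj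
      have h2 := (hx x).trans h
      rw [div_eq_div_iff (h0 _ (hd x)) (h0 b hb)] at h2
      rw [map_mul, map_mul]
      exact h2
    have h2 := hmul _ _ (hn x hx0) hb
    have h3 := hmul _ _ ha (hd x)
    rw [h1] at h2
    omega
  refine ⟨⟨fun x => o (n x) - o (d x), ?_, ?_⟩, ?_⟩
  · intro x y hx0 hy0
    rw [key (x * y) (n x * n y) (d x * d y) (mul_ne_zero (hn x hx0) (hn y hy0))
      (mul_ne_zero (hd x) (hd y)) (by
        rw [map_mul, map_mul, ← div_mul_div_comm, hx, hx]),
      hmul _ _ (hn x hx0) (hn y hy0), hmul _ _ (hd x) (hd y)]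
    ring
  · intro x y hx0 hy0 hxy
    have e : x + y = algebraMap R K (n x * d y + n y * d x) / algebraMap R K (d x * d y) := by
      have h1 := h0 _ (hd x)
      have h2 := h0 _ (hd y)
      have h3 : x * algebraMap R K (d x) = algebraMap R K (n x) := by
        have := hx x; rw [div_eq_iff h1] at this; exact this.symm
      have h4 : y * algebraMap R K (d y) = algebraMap R K (n y) := by
        have := hx y; rw [div_eq_iff h2] at this; exact this.symm
      rw [eq_div_iff (h0 _ (mul_ne_zero (hd x) (hd y)))]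
      simp only [map_mul, map_add]
      linear_combination (algebraMap R K (d y)) * h3 + (algebraMap R K (d x)) * h4
    have hs : n x * d y + n y * d x ≠ 0 := by
      intro h
      rw [h, map_zero, zero_div] at e
      exact hxy e
    show min (o (n x) - o (d x)) (o (n y) - o (d y)) ≤ o (n (x + y)) - o (d (x + y))
    rw [key (x + y) _ _ hs (mul_ne_zero (hd x) (hd y)) e, hmul _ _ (hd x) (hd y)]
    have h5 := hadd _ _ (mul_ne_zero (hn x hx0) (hd y)) (mul_ne_zero (hn y hy0) (hd x)) hs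
    rw [hmul _ _ (hn x hx0) (hd y), hmul _ _ (hn y hy0) (hd x)] at h5
    omega
  · intro r hr
    show o (n (algebraMap R K r)) - o (d (algebraMap R K r)) = o r
    rw [key (algebraMap R K r) r 1 hr one_ne_zero (by simp)]
    have := hmul 1 1 one_ne_zero one_ne_zero
    rw [mul_one] at this
    omega

namespace OrdFn

variable {K : Type*} [Field K] (v : OrdFn K)

/-- `x` is zero or has order at least `C` -/
def Ge (C : ℤ) (x : K) : Prop := x = 0 ∨ C ≤ v.ord x

variable {v}

theorem Ge.mono {C D : ℤ} {x : K} (h : v.Ge C x) (hD : D ≤ C) : v.Ge D x :=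
  h.imp id fun h => hD.trans h

theorem Ge.add {C : ℤ} {x y : K} (hx : v.Ge C x) (hy : v.Ge C y) : v.Ge C (x + y) := by
  by_cases hx0 : x = 0
  · rw [hx0, zero_add]; exact hy
  by_cases hy0 : y = 0
  · rw [hy0, add_zero]; exact hx
  by_cases hxy : x + y = 0
  · exact Or.inl hxy
  · right
    exact le_trans (le_min (hx.resolve_left hx0) (hy.resolve_left hy0)) (v.add _ _ hx0 hy0 hxy)

theorem Ge.mul {C D : ℤ} {x y : K} (hx : v.Ge C x) (hy : v.Ge D y) : v.Ge (C + D) (x * y) := by
  by_cases hx0 : x = 0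
  · rw [hx0, zero_mul]; exact Or.inl rfl
  by_cases hy0 : y = 0
  · rw [hy0, mul_zero]; exact Or.inl rfl
  · right
    rw [v.mul _ _ hx0 hy0]
    exact add_le_add (hx.resolve_left hx0) (hy.resolve_left hy0)

theorem Ge.neg {C : ℤ} {x : K} (hx : v.Ge C x) : v.Ge C (-x) := by
  rcases hx with h | h
  · exact Or.inl (by rw [h, neg_zero])
  · exact Or.inr (by rwa [v.neg])

theorem Ge.sub {C : ℤ} {x y : K} (hx : v.Ge C x) (hy : v.Ge C y) : v.Ge C (x - y) := by
  rw [sub_eq_add_neg]; exact hx.add hy.neg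

variable (v) in
theorem Ge.zero (C : ℤ) : v.Ge C 0 := Or.inl rfl

variable (v) in
theorem Ge.one : v.Ge 0 (1 : K) := Or.inr v.one.ge

theorem Ge.pow {x : K} (hx : v.Ge 0 x) (n : ℕ) : v.Ge 0 (x ^ n) := by
  induction n with
  | zero => rw [pow_zero]; exact Ge.one v
  | succ n ih => rw [pow_succ]; simpa using ih.mul hx

theorem Ge.sum {ι : Type*} {C : ℤ} (s : Finset ι) (f : ι → K) (h : ∀ i ∈ s, v.Ge C (f i)) :
    v.Ge C (∑ i ∈ s, f i) := by
  classical
  induction s using Finset.induction_on with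
  | empty => exact Or.inl rfl
  | insert a s ha ih =>
    rw [Finset.sum_insert ha]
    exact (h a (Finset.mem_insert_self _ _)).add
      (ih fun i hi => h i (Finset.mem_insert_of_mem hi))

/-- if `x` has order `≤ C` and `y - x` has order `> C` then `x`, `y` have the same order -/
theorem ord_eq_of_sub {C : ℤ} {x y : K} (hx : x ≠ 0) (h : v.ord x ≤ C)
    (hxy : v.Ge (C + 1) (y - x)) : y ≠ 0 ∧ v.ord y = v.ord x := by
  rcases hxy with h1 | h1
  · rw [sub_eq_zero.1 h1]
    exact ⟨hx, rfl⟩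
  · by_cases h0 : y - x = 0
    · rw [sub_eq_zero.1 h0]
      exact ⟨hx, rfl⟩
    · have := v.add_of_lt hx h0 (by omega)
      rwa [add_sub_cancel] at this

theorem eval_bound (g : K[X]) : ∃ C : ℤ, ∀ a, v.Ge 0 a → v.Ge C (g.eval a) := by
  induction g using Polynomial.induction_on with
  | C c =>
    refine ⟨v.ord c, fun a _ => ?_⟩
    rw [eval_C]
    exact Or.inr le_rfl
  | add p q hp hq =>
    obtain ⟨C, hC⟩ := hp
    obtain ⟨D, hD⟩ := hq
    refine ⟨min C D, fun a ha => ?_⟩
    rw [eval_add]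
    exact ((hC a ha).mono (min_le_left _ _)).add ((hD a ha).mono (min_le_right _ _))
  | monomial n c h =>
    obtain ⟨C, hC⟩ := h
    refine ⟨C, fun a ha => ?_⟩
    rw [pow_succ, ← mul_assoc, eval_mul, eval_X]
    simpa using (hC a ha).mul ha

theorem sub_bound (g : K[X]) : ∃ C : ℤ, ∀ a b, v.Ge 0 a → v.Ge 0 b →
    ∃ q, g.eval a - g.eval b = (a - b) * q ∧ v.Ge C q := by
  induction g using Polynomial.induction_on with
  | C c =>
    refine ⟨0, fun a b _ _ => ⟨0, ?_, Or.inl rfl⟩⟩
    simp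
  | add p q hp hq =>
    obtain ⟨C, hC⟩ := hp
    obtain ⟨D, hD⟩ := hq
    refine ⟨min C D, fun a b ha hb => ?_⟩
    obtain ⟨q1, h1, h2⟩ := hC a b ha hb
    obtain ⟨q2, h3, h4⟩ := hD a b ha hb
    refine ⟨q1 + q2, ?_, (h2.mono (min_le_left _ _)).add (h4.mono (min_le_right _ _))⟩
    rw [eval_add, eval_add, mul_add, ← h1, ← h3]
    ring
  | monomial n c h =>
    obtain ⟨C, hC⟩ := h
    obtain ⟨D, hD⟩ := eval_bound (v := v) (Polynomial.C c * X ^ n)
    refine ⟨min C D, fun a b ha hb => ?_⟩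
    obtain ⟨q1, h1, h2⟩ := hC a b ha hb
    refine ⟨(Polynomial.C c * X ^ n).eval a + q1 * b, ?_, ((hD a ha).mono (min_le_right _ _)).add
      ((by simpa using h2.mul hb : v.Ge C (q1 * b)).mono (min_le_left _ _))⟩
    have e1 : ∀ x : K, (Polynomial.C c * X ^ (n + 1)).eval x =
        (Polynomial.C c * X ^ n).eval x * x := by
      intro x
      rw [pow_succ, ← mul_assoc, eval_mul, eval_X]
    rw [e1, e1]
    linear_combination b * h1

end OrdFn

/-- extension of an order to a simple extension, when there is a sequence approximating a root of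
the minimal polynomial -/
theorem ext_ord {K L : Type*} [Field K] [Field L] [Algebra K L] (v : OrdFn K) (θ : L)
    (hθ : Function.Surjective (aeval (R := K) θ)) (hint : IsIntegral K θ) (a : ℕ → K)
    (ha : ∀ n, v.Ge 0 (a n)) (hP : ∀ n : ℕ, v.Ge n ((minpoly K θ).eval (a n)))
    (hs : ∀ n : ℕ, v.Ge n (a (n + 1) - a n)) :
    ∃ w : OrdFn L, ∀ x : K, x ≠ 0 → w.ord (algebraMap K L x) = v.ord x := by
  classical
  -- the eventual order of the values
  let E : K[X] → ℤ → Prop := fun g m => ∃ N : ℕ, ∀ n ≥ N, g.eval (a n) ≠ 0 ∧ v.ord (g.eval (a n)) = m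
  have E_uniq : ∀ g m m', E g m → E g m' → m = m' := by
    rintro g m m' ⟨N, hN⟩ ⟨N', hN'⟩
    rw [← (hN (max N N') (le_max_left _ _)).2, ← (hN' (max N N') (le_max_right _ _)).2]
  have E_mul : ∀ g h m l, E g m → E h l → E (g * h) (m + l) := by
    rintro g h m l ⟨N, hN⟩ ⟨N', hN'⟩
    refine ⟨max N N', fun n hn => ?_⟩
    obtain ⟨h1, h2⟩ := hN n (le_of_max_le_left hn)
    obtain ⟨h3, h4⟩ := hN' n (le_of_max_le_right hn)
    rw [eval_mul]
    exact ⟨mul_ne_zero h1 h3, by rw [v.mul _ _ h1 h3, h2, h4]⟩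
  have E_add : ∀ g h m l k, E g m → E h l → E (g + h) k → min m l ≤ k := by
    rintro g h m l k ⟨N, hN⟩ ⟨N', hN'⟩ ⟨N'', hN''⟩
    set n := max N (max N' N'')
    obtain ⟨h1, h2⟩ := hN n (le_max_left _ _)
    obtain ⟨h3, h4⟩ := hN' n ((le_max_left _ _).trans (le_max_right _ _))
    obtain ⟨h5, h6⟩ := hN'' n ((le_max_right _ _).trans (le_max_right _ _))
    rw [eval_add] at h5 h6
    have := v.add _ _ h1 h3 h5
    rwa [h2, h4, h6] at this
  have E_congr : ∀ g h m, E g m → aeval θ g = aeval θ h → E h m := by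
    rintro g h m ⟨N, hN⟩ hgh
    obtain ⟨w, hw⟩ : minpoly K θ ∣ h - g := by
      rw [minpoly.dvd_iff, map_sub, hgh, sub_self]
    obtain ⟨C, hC⟩ := OrdFn.eval_bound (v := v) w
    refine ⟨max N (m + 1 - C).toNat, fun n hn => ?_⟩
    obtain ⟨h1, h2⟩ := hN n (le_of_max_le_left hn)
    have hn2 : m + 1 - C ≤ n := by
      have := le_of_max_le_right hn
      omega
    have h3 : v.Ge (m + 1) (h.eval (a n) - g.eval (a n)) := by
      rw [← eval_sub, hw, eval_mul]
      exact ((hP n).mul (hC _ (ha n))).mono (by omega)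
    have h4 := OrdFn.ord_eq_of_sub h1 h2.le h3
    exact ⟨h4.1, h4.2.trans h2⟩
  have E_ex : ∀ g, aeval θ g ≠ 0 → ∃ m, E g m := by
    intro g hg
    have hirr : Irreducible (minpoly K θ) := minpoly.irreducible hint
    have hcop : IsCoprime (minpoly K θ) g := by
      rw [hirr.coprime_iff_not_dvd, minpoly.dvd_iff]
      exact hg
    obtain ⟨w, u, huw⟩ := hcop
    obtain ⟨Cw, hw⟩ := OrdFn.eval_bound (v := v) w
    obtain ⟨Cu, hu⟩ := OrdFn.eval_bound (v := v) u
    obtain ⟨Cg, hg'⟩ := OrdFn.sub_bound (v := v) g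
    have hval : ∀ n : ℕ, 1 - Cw ≤ n → g.eval (a n) ≠ 0 ∧ v.ord (g.eval (a n)) ≤ - Cu := by
      intro n hn
      have h1 : w.eval (a n) * (minpoly K θ).eval (a n) + u.eval (a n) * g.eval (a n) = 1 := by
        rw [← eval_mul, ← eval_mul, ← eval_add, huw, eval_one]
      have h2 : v.Ge (0 + 1) (u.eval (a n) * g.eval (a n) - 1) := by
        have e : u.eval (a n) * g.eval (a n) - 1 = -(w.eval (a n) * (minpoly K θ).eval (a n)) := by
          linear_combination h1
        rw [e]
        exact (((hw _ (ha n)).mul (hP n)).mono (by omega)).neg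
      obtain ⟨h3, h4⟩ := OrdFn.ord_eq_of_sub one_ne_zero v.one.le h2
      have h5 := left_ne_zero_of_mul h3
      have h6 := right_ne_zero_of_mul h3
      refine ⟨h6, ?_⟩
      rw [v.mul _ _ h5 h6, v.one] at h4
      have := (hu _ (ha n)).resolve_left h5
      omega
    obtain ⟨N, hN1, hN2⟩ : ∃ N : ℕ, 1 - Cw ≤ N ∧ - Cu + 1 - Cg ≤ N :=
      ⟨(max (1 - Cw) (- Cu + 1 - Cg)).toNat, by omega, by omega⟩
    refine ⟨v.ord (g.eval (a N)), N, fun n hn => ?_⟩
    induction n, hn using Nat.le_induction with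
    | base => exact ⟨(hval N hN1).1, rfl⟩
    | succ n hn ih =>
      obtain ⟨q, hq1, hq2⟩ := hg' (a (n + 1)) (a n) (ha _) (ha _)
      have h1 : v.Ge (- Cu + 1) (g.eval (a (n + 1)) - g.eval (a n)) := by
        rw [hq1]
        exact ((hs n).mul hq2).mono (by omega)
      have h2 := OrdFn.ord_eq_of_sub ih.1 (hval n (by omega)).2 h1
      exact ⟨h2.1, h2.2.trans ih.2⟩
  choose g hg using hθ
  have hm : ∀ x : L, ∃ m, x ≠ 0 → E (g x) m := by
    intro x
    by_cases hx : x = 0
    · exact ⟨0, fun h => absurd hx h⟩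
    · obtain ⟨m, hm⟩ := E_ex (g x) (by rw [hg]; exact hx)
      exact ⟨m, fun _ => hm⟩
  choose o ho using hm
  refine ⟨⟨o, ?_, ?_⟩, ?_⟩
  · intro x y hx hy
    apply E_uniq (g (x * y)) _ _ (ho _ (mul_ne_zero hx hy))
    apply E_congr _ _ _ (E_mul _ _ _ _ (ho x hx) (ho y hy))
    rw [map_mul, hg, hg, hg]
  · intro x y hx hy hxy
    apply E_add _ _ _ _ _ (ho x hx) (ho y hy)
    apply E_congr _ _ _ (ho _ hxy)
    rw [map_add, hg, hg, hg]
  · intro x hx
    have hx' : algebraMap K L x ≠ 0 := by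
      rwa [Ne, map_eq_zero_iff _ (algebraMap K L).injective]
    apply E_uniq (g (algebraMap K L x)) _ _ (ho _ hx')
    apply E_congr (Polynomial.C x) _ _ ⟨0, fun n _ => ?_⟩
    · rw [hg, aeval_C]
    · rw [eval_C]
      exact ⟨hx, rfl⟩

end Pool.Agent.J4.H15.MF
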