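import Mathlib
import Pool.Agent.J4.H15.MF.Ext

/-!
# Extension of discrete orders to finite extensions at unramified places
-/

set_option autoImplicit false

namespace Pool.Agent.J4.H15.MF

open Polynomial

section

variable {K : Type*} [Field K] (v : OrdFn K)

/-- the ring of elements of nonnegative order -/
def OrdFn.ring : Subring K where
  carrier := {x | v.Ge 0 x}
  mul_mem' := fun ha hb => by simpa using OrdFn.Ge.mul ha hb
  one_mem' := OrdFn.Ge.one v
  add_mem' := fun ha hb => OrdFn.Ge.add ha hb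
  zero_mem' := OrdFn.Ge.zero v 0
  neg_mem' := fun ha => OrdFn.Ge.neg ha

theorem binom {P : K[X]} (hP : ∀ i, v.Ge 0 (P.coeff i)) {a y : K} (ha : v.Ge 0 a)
    (hy : v.Ge 0 y) : ∃ k, v.Ge 0 k ∧ v.Ge 0 (P.derivative.eval a) ∧
      P.eval (a + y) = P.eval a + P.derivative.eval a * y + k * y ^ 2 := by
  obtain ⟨Q, hQ⟩ : ∃ Q : v.ring[X], Q.map v.ring.subtype = P := by
    rw [← mem_lifts, lifts_iff_coeff_lifts]
    intro n
    exact ⟨⟨P.coeff n, hP n⟩, rfl⟩
  obtain ⟨k, hk⟩ := binomExpansion Q (⟨a, ha⟩ : v.ring) (⟨y, hy⟩ : v.ring)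
  have e : ∀ (q : v.ring[X]) (x : v.ring), ((q.eval x : v.ring) : K) =
      (q.map v.ring.subtype).eval (x : K) := by
    intro q x
    rw [eval_map]
    exact (eval₂_at_apply v.ring.subtype x).symm
  have hk' := congrArg v.ring.subtype hk
  simp only [Subring.subtype_apply, Subring.coe_add, Subring.coe_mul, Subring.coe_pow, e, hQ,
    ← derivative_map] at hk'
  refine ⟨k, k.2, ?_, hk'⟩
  have h1 := (Q.derivative.eval (⟨a, ha⟩ : v.ring)).2
  rw [e, ← derivative_map, hQ] at h1
  exact h1

/-- Newton's method -/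
theorem newton {P : K[X]} (hP : ∀ i, v.Ge 0 (P.coeff i)) {a₀ : K} (ha₀ : v.Ge 0 a₀)
    (h1 : v.Ge 1 (P.eval a₀)) (h2 : P.derivative.eval a₀ ≠ 0)
    (h3 : v.ord (P.derivative.eval a₀) = 0) :
    ∃ a : ℕ → K, (∀ n, v.Ge 0 (a n)) ∧ (∀ n : ℕ, v.Ge n (P.eval (a n))) ∧
      ∀ n : ℕ, v.Ge n (a (n + 1) - a n) := by
  have hP' : ∀ i, v.Ge 0 (P.derivative.coeff i) := by
    intro i
    rw [coeff_derivative]
    have h4 : v.Ge 0 ((i : K) + 1) := by
      have : ((i : K) + 1) ∈ v.ring := by
        exact_mod_cast (natCast_mem v.ring (i + 1))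
      exact this
    simpa using (hP (i + 1)).mul h4
  let T : ℕ → K → Prop := fun n a => v.Ge 0 a ∧ v.Ge (n + 1) (P.eval a) ∧
    P.derivative.eval a ≠ 0 ∧ v.ord (P.derivative.eval a) = 0
  have step : ∀ n a, T n a → ∃ a', T (n + 1) a' ∧ v.Ge n (a' - a) := by
    rintro n a ⟨t1, t2, t3, t4⟩
    set y := - P.eval a * (P.derivative.eval a)⁻¹ with hy
    have hinv : v.Ge 0 (P.derivative.eval a)⁻¹ := Or.inr (by rw [v.inv t3, t4]; rfl)
    have y1 : v.Ge (n + 1) y := by
      have := t2.neg.mul hinv
      rwa [add_zero] at this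
    have y0 : v.Ge 0 y := y1.mono (by omega)
    refine ⟨a + y, ⟨t1.add y0, ?_, ?_⟩, ?_⟩
    · obtain ⟨k, hk, -, he⟩ := binom v hP t1 y0
      have e2 : P.eval a + P.derivative.eval a * y = 0 := by
        rw [hy]
        field_simp
        ring
      rw [he, e2, zero_add, sq]
      have := hk.mul (y1.mul y1)
      refine this.mono ?_
      push_cast
      omega
    · obtain ⟨k, hk, hd, he⟩ := binom v hP' t1 y0
      have h5 : v.Ge (0 + 1) (P.derivative.eval (a + y) - P.derivative.eval a) := by
        rw [he]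
        have h6 := hd.mul y1
        have h7 := hk.mul (y1.mul y1)
        have e3 : P.derivative.eval a + P.derivative.derivative.eval a * y + k * y ^ 2 -
            P.derivative.eval a = P.derivative.derivative.eval a * y + k * (y * y) := by ring
        rw [e3]
        exact (h6.mono (by omega)).add (h7.mono (by omega))
      obtain ⟨h8, h9⟩ := OrdFn.ord_eq_of_sub t3 t4.le h5
      exact ⟨h8, h9.trans t4⟩
    · rw [add_sub_cancel_left]
      exact y1.mono (by omega)
  let S : ∀ n : ℕ, {a : K // T n a} := fun n =>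
    Nat.rec ⟨a₀, ha₀, by simpa using h1, h2, h3⟩
      (fun n a => ⟨(step n a.1 a.2).choose, (step n a.1 a.2).choose_spec.1⟩) n
  refine ⟨fun n => (S n).1, fun n => (S n).2.1, fun n => (S n).2.2.1.mono (by omega), fun n => ?_⟩
  exact (step n (S n).1 (S n).2).choose_spec.2

end

/-- extension to finite extensions at unramified places: a finite set of elements, such that all
orders which vanish at them (and whose residue field is a given algebraically closed field)
extend -/
theorem exists_unram {K L : Type*} [Field K] [CharZero K] [Field L] [Algebra K L]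
    [FiniteDimensional K L] {k : Type*} [Field k] [IsAlgClosed k] (ι : k →+* K) :
    ∃ s : Finset K, (∀ x ∈ s, x ≠ 0) ∧ ∀ v : OrdFn K, (∀ a, v.Ge 0 (ι a)) →
      (∀ x, v.Ge 0 x → ∃ a, v.Ge 1 (x - ι a)) → (∀ x ∈ s, v.ord x = 0) →
      ∃ w : OrdFn L, ∀ x : K, x ≠ 0 → w.ord (algebraMap K L x) = v.ord x := by
  classical
  obtain ⟨θ, hθ⟩ := Field.exists_primitive_element K L
  have hint : IsIntegral K θ := IsIntegral.of_finite K θ
  have hsurj : Function.Surjective (aeval (R := K) θ) := by
    intro x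
    have h1 : x ∈ (⊤ : IntermediateField K L) := trivial
    rw [← hθ] at h1
    have h2 : x ∈ (IntermediateField.adjoin K {θ}).toSubalgebra := h1
    rw [IntermediateField.adjoin_simple_toSubalgebra_of_isAlgebraic hint.isAlgebraic,
      Algebra.adjoin_singleton_eq_range_aeval] at h2
    exact h2
  set P := minpoly K θ with hPdef
  have hirr : Irreducible P := minpoly.irreducible hint
  have hmon : P.Monic := minpoly.monic hint
  obtain ⟨U, W, hUW⟩ : IsCoprime P P.derivative := hirr.separable
  refine ⟨P.coeffs ∪ U.coeffs ∪ W.coeffs, ?_, fun v hι hres hs => ?_⟩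
  · intro x hx
    simp only [Finset.mem_union, mem_coeffs_iff, mem_support_iff] at hx
    rcases hx with (⟨n, h1, rfl⟩ | ⟨n, h1, rfl⟩) | ⟨n, h1, rfl⟩ <;> exact h1
  · have hco : ∀ Q : K[X], (∀ x ∈ Q.coeffs, x ∈ P.coeffs ∪ U.coeffs ∪ W.coeffs) →
        ∀ i, v.Ge 0 (Q.coeff i) := by
      intro Q hQ i
      by_cases h0 : Q.coeff i = 0
      · exact Or.inl h0
      · exact Or.inr (hs _ (hQ _ (coeff_mem_coeffs h0))).ge
    have hPc := hco P (fun x hx => by simp [hx])
    have hUc := hco U (fun x hx => by simp [hx])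
    have hWc := hco W (fun x hx => by simp [hx])
    -- evaluation
    have hev : ∀ Q : K[X], (∀ i, v.Ge 0 (Q.coeff i)) → ∀ a, v.Ge 0 a → v.Ge 0 (Q.eval a) := by
      intro Q hQ a ha
      rw [eval_eq_sum_range]
      exact OrdFn.Ge.sum _ _ fun i _ => by simpa using (hQ i).mul (ha.pow i)
    -- reduction of `P`
    choose α hα using fun i => hres _ (hPc i)
    set d := P.natDegree with hd
    have hd0 : 0 < d := minpoly.natDegree_pos hint
    let q : k[X] := X ^ d + ∑ i ∈ Finset.range d, C (α i) * X ^ i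
    have hq : q.degree ≠ 0 := by
      have h1 : (∑ i ∈ Finset.range d, C (α i) * X ^ i : k[X]).degree < d := by
        rw [degree_lt_iff_coeff_zero]
        intro m hm
        rw [finsetSum_coeff]
        refine Finset.sum_eq_zero fun i hi => ?_
        rw [coeff_C_mul_X_pow, if_neg]
        have := Finset.mem_range.1 hi
        omega
      have h2 : q.degree = d := by
        rw [degree_add_eq_left_of_degree_lt, degree_X_pow]
        rwa [degree_X_pow]
      rw [h2]
      exact_mod_cast hd0.ne'
    obtain ⟨β, hβ⟩ := IsAlgClosed.exists_root q hq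
    have hb : v.Ge 0 (ι β) := hι β
    have hPb : v.Ge 1 (P.eval (ι β)) := by
      have h1 : P.eval (ι β) = (∑ i ∈ Finset.range d, (P.coeff i - ι (α i)) * ι β ^ i) +
          ι (q.eval β) := by
        rw [eval_eq_sum_range, ← hd, Finset.sum_range_succ, hd, hmon.coeff_natDegree, ← hd]
        simp only [q, eval_add, eval_pow, eval_X, eval_finsetSum, eval_mul, eval_C, map_add,
          map_pow, map_sum, map_mul, sub_mul, Finset.sum_sub_distrib]
        ring
      rw [h1, hβ.eq_zero, map_zero, add_zero]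
      exact OrdFn.Ge.sum _ _ fun i _ => by simpa using (hα i).mul (hb.pow i)
    have h5 : U.eval (ι β) * P.eval (ι β) + W.eval (ι β) * P.derivative.eval (ι β) = 1 := by
      rw [← eval_mul, ← eval_mul, ← eval_add, hUW, eval_one]
    have h6 : v.Ge (0 + 1) (W.eval (ι β) * P.derivative.eval (ι β) - 1) := by
      have e : W.eval (ι β) * P.derivative.eval (ι β) - 1 = -(U.eval (ι β) * P.eval (ι β)) := by
        linear_combination h5
      rw [e]
      exact ((hev U hUc _ hb).mul hPb).neg
    obtain ⟨h7, h8⟩ := OrdFn.ord_eq_of_sub one_ne_zero v.one.le h6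
    have h9 := left_ne_zero_of_mul h7
    have h10 := right_ne_zero_of_mul h7
    have h11 := (hev W hWc _ hb).resolve_left h9
    have h12 : v.Ge 0 (P.derivative.eval (ι β)) := by
      obtain ⟨-, -, h, -⟩ := binom v hPc hb hb
      exact h
    have h13 := h12.resolve_left h10
    rw [v.mul _ _ h9 h10, v.one] at h8
    obtain ⟨a, ha1, ha2, ha3⟩ := newton v hPc hb hPb h10 (by omega)
    exact ext_ord v θ hsurj hint a ha1 ha2 ha3

end Pool.Agent.J4.H15.MF
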