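import Mathlib

/-!
# Square roots on the closed upper half plane

`rt z` is the square root with nonnegative real and imaginary part of `z` in the closed upper half
plane (given by a formula which is continuous on the whole plane), `rho k` a square root of
`(z - 2 k) (z - 2 k - 1)` and `D A` the product of the `rho k`, `k ∈ A`.
-/

set_option autoImplicit false

namespace Pool.Agent.J4.H15.MF

open Complex Filter Topology Set
open scoped ComplexConjugate

/-- square root in the first quadrant of points in the closed upper half plane -/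
noncomputable def rt (z : ℂ) : ℂ :=
  ((Real.sqrt ((‖z‖ + z.re) / 2) : ℝ) : ℂ) + ((Real.sqrt ((‖z‖ - z.re) / 2) : ℝ) : ℂ) * I

theorem rt_continuous : Continuous rt := by
  unfold rt
  fun_prop

theorem rt_sq {z : ℂ} (hz : 0 ≤ z.im) : rt z ^ 2 = z := by
  have h1 : 0 ≤ (‖z‖ + z.re) / 2 := by
    have := Complex.abs_re_le_norm z
    have := neg_abs_le z.re
    linarith
  have h2 : 0 ≤ (‖z‖ - z.re) / 2 := by
    have := Complex.abs_re_le_norm z
    have := le_abs_self z.re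
    linarith
  set a := Real.sqrt ((‖z‖ + z.re) / 2) with ha
  set b := Real.sqrt ((‖z‖ - z.re) / 2) with hb
  have ha2 : a ^ 2 = (‖z‖ + z.re) / 2 := Real.sq_sqrt h1
  have hb2 : b ^ 2 = (‖z‖ - z.re) / 2 := Real.sq_sqrt h2
  have hn : ‖z‖ ^ 2 = z.re ^ 2 + z.im ^ 2 := by
    rw [Complex.sq_norm, Complex.normSq_apply]; ring
  have hab : 2 * (a * b) = z.im := by
    have e1 : (2 * (a * b)) ^ 2 = z.im ^ 2 := by
      have : (2 * (a * b)) ^ 2 = 4 * (a ^ 2 * b ^ 2) := by ring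
      rw [this, ha2, hb2]
      nlinarith
    have e2 : 0 ≤ 2 * (a * b) := by
      have := Real.sqrt_nonneg ((‖z‖ + z.re) / 2)
      have := Real.sqrt_nonneg ((‖z‖ - z.re) / 2)
      positivity
    exact (pow_left_inj₀ e2 hz (by norm_num)).1 e1
  have e : rt z = (a : ℂ) + (b : ℂ) * I := rfl
  rw [e]
  apply Complex.ext
  · simp only [sq, Complex.add_re, Complex.mul_re, Complex.ofReal_re, Complex.ofReal_im,
      Complex.I_re, Complex.I_im, Complex.add_im, Complex.mul_im]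
    nlinarith
  · simp only [sq, Complex.add_re, Complex.mul_re, Complex.ofReal_re, Complex.ofReal_im,
      Complex.I_re, Complex.I_im, Complex.add_im, Complex.mul_im]
    nlinarith

theorem rt_conj_of_nonneg {x : ℝ} (hx : 0 ≤ x) : conj (rt x) = rt x := by
  have : rt x = ((Real.sqrt x : ℝ) : ℂ) := by
    unfold rt
    rw [Complex.norm_real, Real.norm_eq_abs, abs_of_nonneg hx, Complex.ofReal_re]
    simp
  rw [this, Complex.conj_ofReal]

theorem rt_conj_of_nonpos {x : ℝ} (hx : x ≤ 0) : conj (rt x) = - rt x := by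
  have : rt x = ((Real.sqrt (-x) : ℝ) : ℂ) * I := by
    unfold rt
    rw [Complex.norm_real, Real.norm_eq_abs, abs_of_nonpos hx, Complex.ofReal_re]
    have e : (-x - x) / 2 = -x := by ring
    rw [e]
    simp
  rw [this, map_mul, Complex.conj_ofReal, Complex.conj_I]
  ring

theorem rt_ne_zero {z : ℂ} (hz : 0 ≤ z.im) (h0 : z ≠ 0) : rt z ≠ 0 := by
  intro h
  apply h0
  rw [← rt_sq hz, h]
  ring

theorem rt_hasDerivAt {z : ℂ} (hz : 0 < z.im) : HasDerivAt rt (1 / (2 * rt z)) z := by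
  have h0 : z ≠ 0 := by
    intro h
    rw [h] at hz
    simp at hz
  have hr : rt z ≠ 0 := rt_ne_zero hz.le h0
  rw [hasDerivAt_iff_tendsto_slope]
  have hev : ∀ᶠ w in 𝓝[≠] z, slope rt z w = 1 / (rt w + rt z) := by
    have h1 : ∀ᶠ w in 𝓝 z, 0 < w.im := (isOpen_lt continuous_const Complex.continuous_im).mem_nhds hz
    filter_upwards [nhdsWithin_le_nhds h1, self_mem_nhdsWithin] with w hw hwz
    have hwz' : w - z ≠ 0 := sub_ne_zero.2 hwz
    have e1 : (rt w - rt z) * (rt w + rt z) = w - z := by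
      have a1 := rt_sq hw.le
      have a2 := rt_sq hz.le
      linear_combination a1 - a2
    have e2 : rt w + rt z ≠ 0 := by
      intro h
      rw [h, mul_zero] at e1
      exact hwz' e1.symm
    rw [slope_def_field, div_eq_div_iff hwz' e2, one_mul, e1]
  refine Tendsto.congr' (EventuallyEq.symm hev) ?_
  have h2 : Tendsto (fun w => 1 / (rt w + rt z)) (𝓝 z) (𝓝 (1 / (rt z + rt z))) := by
    apply Tendsto.div tendsto_const_nhds
    · exact (rt_continuous.tendsto z).add tendsto_const_nhds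
    · rw [← two_mul]
      exact mul_ne_zero two_ne_zero hr
  rw [← two_mul] at h2
  exact h2.mono_left nhdsWithin_le_nhds

/-- a square root of `(z - 2 k) (z - (2 k + 1))` -/
noncomputable def rho (k : ℕ) (z : ℂ) : ℂ := rt (z - (2 * k : ℕ)) * rt (z - (2 * k + 1 : ℕ))

/-- a square root of the product of the `(z - 2 k) (z - (2 k + 1))`, `k ∈ A` -/
noncomputable def D (A : Finset ℕ) (z : ℂ) : ℂ := ∏ k ∈ A, rho k z

/-- the product of the `(z - 2 k) (z - (2 k + 1))`, `k ∈ A` -/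
noncomputable def bb (A : Finset ℕ) (z : ℂ) : ℂ :=
  ∏ k ∈ A, ((z - (2 * k : ℕ)) * (z - (2 * k + 1 : ℕ)))

theorem rho_continuous (k : ℕ) : Continuous (rho k) :=
  (rt_continuous.comp (continuous_id.sub continuous_const)).mul
    (rt_continuous.comp (continuous_id.sub continuous_const))

theorem D_continuous (A : Finset ℕ) : Continuous (D A) :=
  continuous_finsetProd _ fun k _ => rho_continuous k

theorem rho_sq (k : ℕ) {z : ℂ} (hz : 0 ≤ z.im) :
    rho k z ^ 2 = (z - (2 * k : ℕ)) * (z - (2 * k + 1 : ℕ)) := by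
  unfold rho
  rw [mul_pow, rt_sq, rt_sq]
  · simpa using hz
  · simpa using hz

theorem D_sq (A : Finset ℕ) {z : ℂ} (hz : 0 ≤ z.im) : D A z ^ 2 = bb A z := by
  unfold D bb
  rw [← Finset.prod_pow]
  exact Finset.prod_congr rfl fun k _ => rho_sq k hz

theorem rho_differentiableAt (k : ℕ) {z : ℂ} (hz : 0 < z.im) : DifferentiableAt ℂ (rho k) z := by
  have h1 : ∀ c : ℕ, DifferentiableAt ℂ (fun z : ℂ => rt (z - (c : ℂ))) z := by
    intro c
    have h2 : HasDerivAt (fun z : ℂ => z - (c : ℂ)) 1 z := (hasDerivAt_id z).sub_const _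
    have h3 := (rt_hasDerivAt (z := z - (c : ℂ)) (by simpa using hz)).comp z h2
    exact h3.differentiableAt
  exact (h1 (2 * k)).mul (h1 (2 * k + 1))

theorem D_differentiableAt (A : Finset ℕ) {z : ℂ} (hz : 0 < z.im) :
    DifferentiableAt ℂ (D A) z := by
  have : D A = fun z => ∏ k ∈ A, rho k z := rfl
  rw [this]
  exact DifferentiableAt.fun_finsetProd fun k _ => rho_differentiableAt k hz

theorem rho_conj_out (k : ℕ) {x : ℝ} (hx : x ∉ Ioo ((2 * k : ℕ) : ℝ) ((2 * k + 1 : ℕ) : ℝ)) :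
    conj (rho k x) = rho k x := by
  have e1 : (x : ℂ) - (2 * k : ℕ) = ((x - (2 * k : ℕ) : ℝ) : ℂ) := by push_cast; ring
  have e2 : (x : ℂ) - (2 * k + 1 : ℕ) = ((x - (2 * k + 1 : ℕ) : ℝ) : ℂ) := by push_cast; ring
  unfold rho
  rw [e1, e2, map_mul]
  rcases le_or_gt x ((2 * k : ℕ) : ℝ) with h | h
  · rw [rt_conj_of_nonpos (by linarith), rt_conj_of_nonpos]
    · ring
    · push_cast at h ⊢
      linarith
  · have h2 : ((2 * k + 1 : ℕ) : ℝ) ≤ x := by
      by_contra h3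
      exact hx ⟨h, not_le.1 h3⟩
    rw [rt_conj_of_nonneg (by linarith), rt_conj_of_nonneg (by linarith)]

theorem rho_conj_in (k : ℕ) {x : ℝ} (hx : x ∈ Icc ((2 * k : ℕ) : ℝ) ((2 * k + 1 : ℕ) : ℝ)) :
    conj (rho k x) = - rho k x := by
  have e1 : (x : ℂ) - (2 * k : ℕ) = ((x - (2 * k : ℕ) : ℝ) : ℂ) := by push_cast; ring
  have e2 : (x : ℂ) - (2 * k + 1 : ℕ) = ((x - (2 * k + 1 : ℕ) : ℝ) : ℂ) := by push_cast; ring
  unfold rho
  rw [e1, e2, map_mul, rt_conj_of_nonneg (by linarith [hx.1]), rt_conj_of_nonpos (by linarith [hx.2])]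
  ring

theorem D_conj_out (A : Finset ℕ) {x : ℝ}
    (hx : ∀ k ∈ A, x ∉ Ioo ((2 * k : ℕ) : ℝ) ((2 * k + 1 : ℕ) : ℝ)) :
    conj (D A x) = D A x := by
  unfold D
  rw [map_prod]
  exact Finset.prod_congr rfl fun k hk => rho_conj_out k (hx k hk)

theorem notMem_of_mem_Icc {k j : ℕ} (hkj : j ≠ k) {x : ℝ}
    (hx : x ∈ Icc ((2 * k : ℕ) : ℝ) ((2 * k + 1 : ℕ) : ℝ)) :
    x ∉ Ioo ((2 * j : ℕ) : ℝ) ((2 * j + 1 : ℕ) : ℝ) := by
  intro h
  have h1 : ((2 * j : ℕ) : ℝ) < ((2 * k + 1 : ℕ) : ℝ) := h.1.trans_le hx.2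
  have h2 : ((2 * k : ℕ) : ℝ) < ((2 * j + 1 : ℕ) : ℝ) := hx.1.trans_lt h.2
  have h3 : 2 * j < 2 * k + 1 := by exact_mod_cast h1
  have h4 : 2 * k < 2 * j + 1 := by exact_mod_cast h2
  omega

theorem D_conj_in (A : Finset ℕ) {k : ℕ} (hk : k ∈ A) {x : ℝ}
    (hx : x ∈ Icc ((2 * k : ℕ) : ℝ) ((2 * k + 1 : ℕ) : ℝ)) :
    conj (D A x) = - D A x := by
  unfold D
  rw [← Finset.mul_prod_erase A _ hk, map_mul, rho_conj_in k hx]
  have h := D_conj_out (A.erase k) (x := x) (fun j hj => notMem_of_mem_Icc (Finset.ne_of_mem_erase hj) hx)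
  unfold D at h
  rw [h]
  ring

theorem rho_ne_zero (k : ℕ) {x : ℝ} (h1 : x ≠ (2 * k : ℕ)) (h2 : x ≠ (2 * k + 1 : ℕ)) :
    rho k x ≠ 0 := by
  unfold rho
  apply mul_ne_zero
  · apply rt_ne_zero (by simp)
    rw [sub_ne_zero]
    exact_mod_cast h1
  · apply rt_ne_zero (by simp)
    rw [sub_ne_zero]
    exact_mod_cast h2

theorem D_ne_zero (A : Finset ℕ) {x : ℝ} (h : ∀ i : ℕ, x ≠ i) : D A x ≠ 0 :=
  Finset.prod_ne_zero_iff.2 fun k _ => rho_ne_zero k (h _) (h _)

end Pool.Agent.J4.H15.MF
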