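import Mathlib
import Pool.Agent.J4.H15.MF.Root

/-!
# Polynomials with prescribed integrals over consecutive intervals
-/

set_option autoImplicit false

namespace Pool.Agent.J4.H15.MF

open Filter Topology Set MeasureTheory
open scoped ComplexConjugate Interval Polynomial

theorem moments (n : ℕ) (W : ℝ → ℝ) (hW : Continuous W)
    (h0 : ∀ i : ℕ, i < n → ∀ s ∈ Ioo ((i : ℝ) - 1) i, W s ≠ 0) (m : Fin n → ℝ) :
    ∃ q : ℝ[X], ∀ i : Fin n, ∫ s in (((i : ℕ) : ℝ) - 1)..((i : ℕ) : ℝ), q.eval s * W s = m i := by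
  classical
  have hint : ∀ (q : ℝ[X]) (a b : ℝ), IntervalIntegrable (fun s => q.eval s * W s) volume a b :=
    fun q a b => (q.continuous.mul hW).intervalIntegrable _ _
  let T : ℝ[X] →ₗ[ℝ] (Fin n → ℝ) :=
    { toFun := fun q i => ∫ s in (((i : ℕ) : ℝ) - 1)..((i : ℕ) : ℝ), q.eval s * W s
      map_add' := by
        intro p q
        funext i
        simp only [Polynomial.eval_add, add_mul, Pi.add_apply]
        exact intervalIntegral.integral_add (hint p _ _) (hint q _ _)
      map_smul' := by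
        intro c q
        funext i
        simp only [Polynomial.eval_smul, smul_eq_mul, mul_assoc, RingHom.id_apply, Pi.smul_apply]
        exact intervalIntegral.integral_const_mul _ _ }
  suffices h : LinearMap.range T = ⊤ by
    obtain ⟨q, hq⟩ := (LinearMap.range_eq_top.1 h) m
    exact ⟨q, fun i => congrFun hq i⟩
  by_contra hne
  obtain ⟨f, hf0, hf⟩ := Submodule.exists_le_ker_of_lt_top (LinearMap.range T)
    (lt_top_iff_ne_top.2 hne)
  set γ : Fin n → ℝ := fun i => f (fun j => if i = j then 1 else 0) with hγ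
  have hfx : ∀ x, f x = ∑ i, x i * γ i := fun x => by
    rw [LinearMap.pi_apply_eq_sum_univ f x]
    rfl
  obtain ⟨j, hj⟩ : ∃ j, γ j ≠ 0 := by
    by_contra hcon
    push Not at hcon
    apply hf0
    ext x
    simp [hfx, hcon]
  have hz : ∀ q : ℝ[X], ∑ i, T q i * γ i = 0 := by
    intro q
    rw [← hfx]
    exact LinearMap.mem_ker.1 (hf ⟨q, rfl⟩)
  -- the bump function
  set χ : ℝ → ℝ := fun s => max 0 ((s - (((j : ℕ) : ℝ) - 1)) * (((j : ℕ) : ℝ) - s)) with hχ
  have hχc : Continuous χ := by rw [hχ]; fun_prop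
  set F : ℝ → ℝ := fun s => W s * χ s with hF
  have hFc : Continuous F := hW.mul hχc
  have hFint : ∀ a b : ℝ, IntervalIntegrable (fun s => F s * W s) volume a b :=
    fun a b => (hFc.mul hW).intervalIntegrable _ _
  set K : ℝ := ∑ i : Fin n, |γ i| * ∫ s in (((i : ℕ) : ℝ) - 1)..((i : ℕ) : ℝ), |W s| with hK
  have hK0 : 0 ≤ K := Finset.sum_nonneg fun i _ => mul_nonneg (abs_nonneg _)
    (intervalIntegral.integral_nonneg (by linarith) fun s _ => abs_nonneg _)
  have hsum : ∑ i : Fin n, (∫ s in (((i : ℕ) : ℝ) - 1)..((i : ℕ) : ℝ), F s * W s) * γ i = 0 := by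
    by_contra hne'
    set S := ∑ i : Fin n, (∫ s in (((i : ℕ) : ℝ) - 1)..((i : ℕ) : ℝ), F s * W s) * γ i with hS
    have hSpos : 0 < |S| := abs_pos.2 hne'
    obtain ⟨δ, hδ⟩ : ∃ δ : ℝ, δ = |S| / (K + 1) := ⟨_, rfl⟩
    obtain ⟨q, hq⟩ := exists_polynomial_near_of_continuousOn (-1) n F hFc.continuousOn
      δ (by rw [hδ]; positivity)
    have h1 : |S| ≤ δ * K := by
      have e : S = ∑ i : Fin n, (∫ s in (((i : ℕ) : ℝ) - 1)..((i : ℕ) : ℝ),
          (F s - q.eval s) * W s) * γ i := by
        rw [← sub_zero S, ← hz q, hS, ← Finset.sum_sub_distrib]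
        apply Finset.sum_congr rfl
        intro i _
        show (∫ s in (((i : ℕ) : ℝ) - 1)..((i : ℕ) : ℝ), F s * W s) * γ i -
          (∫ s in (((i : ℕ) : ℝ) - 1)..((i : ℕ) : ℝ), q.eval s * W s) * γ i = _
        rw [← sub_mul, ← intervalIntegral.integral_sub (hFint _ _) (hint q _ _)]
        congr 1
        apply intervalIntegral.integral_congr
        intro s _
        simp only
        ring
      rw [e, hK, Finset.mul_sum]
      refine (Finset.abs_sum_le_sum_abs _ _).trans (Finset.sum_le_sum fun i _ => ?_)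
      rw [abs_mul, mul_comm, ← mul_assoc, mul_comm δ, mul_assoc]
      apply mul_le_mul_of_nonneg_left _ (abs_nonneg _)
      rw [← intervalIntegral.integral_const_mul]
      refine (intervalIntegral.abs_integral_le_integral_abs (by linarith)).trans ?_
      apply intervalIntegral.integral_mono_on (by linarith)
      · exact (((hFc.sub q.continuous).mul hW).abs).intervalIntegrable _ _
      · exact (continuous_const.mul hW.abs).intervalIntegrable _ _
      · intro s hs
        rw [abs_mul]
        apply mul_le_mul_of_nonneg_right _ (abs_nonneg _)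
        rw [abs_sub_comm]
        refine (hq s ⟨?_, ?_⟩).le
        · have : (0 : ℝ) ≤ ((i : ℕ) : ℝ) := Nat.cast_nonneg _
          linarith [hs.1]
        · have : ((i : ℕ) : ℝ) < n := by exact_mod_cast i.2
          linarith [hs.2]
    have h2 : δ * K < |S| := by
      rw [hδ, div_mul_eq_mul_div, div_lt_iff₀ (by linarith)]
      nlinarith
    linarith
  have hzero : ∀ i : Fin n, i ≠ j →
      (∫ s in (((i : ℕ) : ℝ) - 1)..((i : ℕ) : ℝ), F s * W s) = 0 := by
    intro i hij
    have e : (∫ s in (((i : ℕ) : ℝ) - 1)..((i : ℕ) : ℝ), F s * W s) =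
        ∫ s in (((i : ℕ) : ℝ) - 1)..((i : ℕ) : ℝ), (0 : ℝ) := by
      apply intervalIntegral.integral_congr
      intro s hs
      rw [uIcc_of_le (by linarith)] at hs
      have h1 : χ s = 0 := by
        rw [hχ]
        simp only
        apply max_eq_left
        rcases lt_or_gt_of_ne (fun h => hij (Fin.ext h) : (i : ℕ) ≠ j) with h | h
        · have : ((i : ℕ) : ℝ) + 1 ≤ ((j : ℕ) : ℝ) := by exact_mod_cast h
          nlinarith [hs.1, hs.2]
        · have : ((j : ℕ) : ℝ) + 1 ≤ ((i : ℕ) : ℝ) := by exact_mod_cast h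
          nlinarith [hs.1, hs.2]
      simp only [hF, h1, mul_zero, zero_mul]
    rw [e]
    simp
  rw [Finset.sum_eq_single j (fun i _ hij => by rw [hzero i hij, zero_mul])
    (fun h => absurd (Finset.mem_univ j) h)] at hsum
  have hpos : 0 < ∫ s in (((j : ℕ) : ℝ) - 1)..((j : ℕ) : ℝ), F s * W s := by
    apply intervalIntegral.intervalIntegral_pos_of_pos_on (hFint _ _) _ (by linarith)
    intro s hs
    have h1 : 0 < χ s := by
      rw [hχ]
      simp only
      apply lt_max_of_lt_right
      apply mul_pos <;> linarith [hs.1, hs.2]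
    have h2 : W s ≠ 0 := h0 j j.2 s hs
    have h3 : F s * W s = χ s * W s ^ 2 := by rw [hF]; ring
    rw [h3]
    positivity
  exact (mul_ne_zero hpos.ne' hj) hsum

end Pool.Agent.J4.H15.MF
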