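import Mathlib

/-!
# Primitives on the upper half plane, up to the boundary
-/

set_option autoImplicit false

namespace Pool.Agent.J4.H15.MF

open Complex Filter Topology Set MeasureTheory
open scoped ComplexConjugate Interval

theorem primitive (g : ℂ → ℂ) (hc : Continuous g)
    (hd : ∀ z : ℂ, 0 < z.im → DifferentiableAt ℂ g z) (x0 : ℝ) :
    ∃ v : ℂ → ℂ, Continuous v ∧ (∀ z : ℂ, 0 < z.im → DifferentiableAt ℂ v z) ∧
      ∀ x : ℝ, v x = ∫ s in x0..x, g s := by
  have hcg : ∀ x : ℝ, Continuous fun y : ℝ => g (x + y * I) := fun x => hc.comp (by fun_prop)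
  refine ⟨fun z => (∫ s in x0..z.re, g s) + I * ∫ t in (0 : ℝ)..z.im, g (z.re + t * I),
    ?_, ?_, ?_⟩
  · apply Continuous.add
    · exact intervalIntegral.continuous_parametric_intervalIntegral_of_continuous
        (f := fun (_ : ℂ) (s : ℝ) => g s) (hc.comp (by fun_prop)) Complex.continuous_re
    · apply continuous_const.mul
      exact intervalIntegral.continuous_parametric_intervalIntegral_of_continuous
        (f := fun (z : ℂ) (t : ℝ) => g (z.re + t * I)) (hc.comp (by fun_prop)) Complex.continuous_im
  · intro z hz
    have hball : Metric.ball z z.im ⊆ {w : ℂ | 0 < w.im} := by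
      intro w hw
      rw [Metric.mem_ball, Complex.dist_eq] at hw
      have h1 := Complex.abs_im_le_norm (w - z)
      have h2 := neg_abs_le (w - z).im
      rw [Complex.sub_im] at h1 h2
      show 0 < w.im
      linarith
    have hdiff : DifferentiableOn ℂ g (Metric.ball z z.im) := fun w hw =>
      (hd w (hball hw)).differentiableWithinAt
    have hcons := hdiff.isConservativeOn
    have hder : HasDerivAt (fun w ↦ wedgeIntegral z w g) (g z) z :=
      hcons.hasDerivAt_wedgeIntegral hdiff.continuousOn (Metric.mem_ball_self hz)
    have key : ∀ w : ℂ, 0 < w.im →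
        (∫ s in x0..w.re, g s) + I * (∫ t in (0 : ℝ)..w.im, g (w.re + t * I)) =
        (∫ s in x0..z.re, g s) + I * (∫ t in (0 : ℝ)..z.im, g (z.re + t * I)) +
          wedgeIntegral z w g := by
      intro w hw
      have hrect := integral_boundary_rect_eq_zero_of_continuousOn_of_differentiableOn g
        (z.re : ℂ) (w.re + z.im * I : ℂ) hc.continuousOn (by
          intro ζ hζ
          rw [mem_reProdIm] at hζ
          apply (hd ζ ?_).differentiableWithinAt
          have := hζ.2.1
          simp only [Complex.ofReal_im, Complex.add_im, Complex.mul_im, Complex.ofReal_re,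
            Complex.I_im, mul_one, Complex.I_re, mul_zero, add_zero, zero_add] at this
          exact lt_of_le_of_lt (le_min le_rfl hz.le) this)
      simp only [Complex.ofReal_im, Complex.add_im, Complex.mul_im, Complex.ofReal_re,
        Complex.I_im, mul_one, Complex.I_re, mul_zero, add_zero, zero_add, Complex.add_re,
        Complex.mul_re, sub_self, Complex.ofReal_zero, zero_mul, smul_eq_mul] at hrect
      have e1 : (∫ s in x0..z.re, g s) + (∫ s in z.re..w.re, g s) = ∫ s in x0..w.re, g s :=
        intervalIntegral.integral_add_adjacent_intervals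
          ((hc.comp Complex.continuous_ofReal).intervalIntegrable _ _)
          ((hc.comp Complex.continuous_ofReal).intervalIntegrable _ _)
      have e2 : (∫ t in (0 : ℝ)..z.im, g (w.re + t * I)) + (∫ t in z.im..w.im, g (w.re + t * I)) =
          ∫ t in (0 : ℝ)..w.im, g (w.re + t * I) :=
        intervalIntegral.integral_add_adjacent_intervals
          ((hcg w.re).intervalIntegrable _ _) ((hcg w.re).intervalIntegrable _ _)
      rw [← e1, ← e2]
      unfold wedgeIntegral
      rw [smul_eq_mul]
      linear_combination hrect
    have hev : (fun w : ℂ => (∫ s in x0..w.re, g s) + I * (∫ t in (0 : ℝ)..w.im, g (w.re + t * I)))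
        =ᶠ[𝓝 z] fun w => (∫ s in x0..z.re, g s) + I * (∫ t in (0 : ℝ)..z.im, g (z.re + t * I)) +
          wedgeIntegral z w g := by
      filter_upwards [(isOpen_lt continuous_const Complex.continuous_im).mem_nhds hz] with w hw
      exact key w hw
    exact ((hder.const_add _).congr_of_eventuallyEq hev).differentiableAt
  · intro x
    simp

end Pool.Agent.J4.H15.MF
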