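import Mathlib
import Pool.Agent.J4.H15.MF.Prim
import Pool.Agent.J4.H15.MF.Moment

/-!
# A mixed boundary value problem in the upper half plane

There is a holomorphic function `v` on the upper half plane, continuous up to the boundary, with real
values on the real line outside the intervals `[2 k, 2 k + 1]`, `k ∈ B`, and with the prescribed real
part `τ k` on `[2 k, 2 k + 1]`, `k ∈ B`.
-/

set_option autoImplicit false

namespace Pool.Agent.J4.H15.MF

open Filter Topology Set MeasureTheory
open scoped ComplexConjugate Interval Polynomial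

/-- no point of `[i, i + 1]` lies in an open interval `(2 k, 2 k + 1)` with `2 k ≠ i` -/
theorem notMem_Ioo {i k : ℕ} (h : i ≠ 2 * k) {x : ℝ} (hx : x ∈ Icc (i : ℝ) ((i : ℝ) + 1)) :
    x ∉ Ioo ((2 * k : ℕ) : ℝ) ((2 * k + 1 : ℕ) : ℝ) := by
  intro h'
  have h1 : ((2 * k : ℕ) : ℝ) < ((i + 1 : ℕ) : ℝ) := by
    push_cast
    have := h'.1
    push_cast at this
    linarith [hx.2]
  have h2 : (i : ℝ) < ((2 * k + 1 : ℕ) : ℝ) := hx.1.trans_lt h'.2
  have h3 : 2 * k < i + 1 := by exact_mod_cast h1
  have h4 : i < 2 * k + 1 := by exact_mod_cast h2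
  omega

theorem notMem_Ioo_neg {k : ℕ} {x : ℝ} (hx : x ≤ 0) :
    x ∉ Ioo ((2 * k : ℕ) : ℝ) ((2 * k + 1 : ℕ) : ℝ) := by
  intro h'
  have : (0 : ℝ) ≤ ((2 * k : ℕ) : ℝ) := Nat.cast_nonneg _
  linarith [h'.1]

/-- the values at integer points -/
theorem values (N : ℕ) (B : Finset ℕ) (τ : ℕ → ℝ) : ∃ q : ℝ[X], ∀ i : ℕ, i < 2 * N →
    ∫ s in (-1 : ℝ)..(i : ℝ), ((q.eval s : ℝ) : ℂ) * D B s = ((τ (i / 2) : ℝ) : ℂ) := by
  classical
  set W : ℝ → ℝ := fun s => (D B s).re + (D B s).im with hW
  have hDc : Continuous fun s : ℝ => D B s := (D_continuous B).comp Complex.continuous_ofReal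
  have hWc : Continuous W := (Complex.continuous_re.comp hDc).add (Complex.continuous_im.comp hDc)
  -- the two cases
  have hreal : ∀ s : ℝ, conj (D B s) = D B s → D B s = ((W s : ℝ) : ℂ) := by
    intro s hs
    have h1 : (D B s).im = 0 := Complex.conj_eq_iff_im.1 hs
    apply Complex.ext
    · simp [hW, h1]
    · simp [h1]
  have himag : ∀ s : ℝ, conj (D B s) = - D B s → D B s = Complex.I * ((W s : ℝ) : ℂ) := by
    intro s hs
    have h1 : (D B s).re = 0 := by
      have := congrArg Complex.re hs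
      rw [Complex.conj_re, Complex.neg_re] at this
      linarith
    apply Complex.ext
    · simp [h1]
    · simp [hW, h1]
  have hcase : ∀ i : ℕ, (∀ s ∈ Icc ((i : ℝ) - 1) i, conj (D B s) = D B s) ∨
      (i % 2 = 1 ∧ ∀ s ∈ Icc ((i : ℝ) - 1) i, conj (D B s) = - D B s) := by
    intro i
    rcases Nat.eq_zero_or_pos i with hi | hi
    · left
      intro s hs
      apply D_conj_out
      intro k _
      apply notMem_Ioo_neg
      rw [hi] at hs
      simpa using hs.2
    · obtain ⟨j, rfl⟩ : ∃ j, i = j + 1 := ⟨i - 1, by omega⟩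
      by_cases hj : ∃ k ∈ B, j = 2 * k
      · obtain ⟨k, hk, rfl⟩ := hj
        right
        refine ⟨by omega, fun s hs => D_conj_in B hk ⟨?_, ?_⟩⟩
        · have := hs.1
          push_cast at this ⊢
          linarith
        · have := hs.2
          push_cast at this ⊢
          linarith
      · left
        intro s hs
        apply D_conj_out
        intro k hk
        apply notMem_Ioo (i := j) (fun h => hj ⟨k, hk, h⟩)
        constructor
        · have := hs.1
          push_cast at this
          linarith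
        · have := hs.2
          push_cast at this
          linarith
  have h0 : ∀ i : ℕ, i < 2 * N → ∀ s ∈ Ioo ((i : ℝ) - 1) i, W s ≠ 0 := by
    intro i _ s hs hWs
    have hne : D B s ≠ 0 := by
      apply D_ne_zero
      intro j hj
      rw [hj] at hs
      have h1 : (i : ℝ) < ((j + 1 : ℕ) : ℝ) := by push_cast; linarith [hs.1]
      have h2 : i < j + 1 := by exact_mod_cast h1
      have h3 : j < i := by exact_mod_cast hs.2
      omega
    rcases hcase i with h | ⟨-, h⟩
    · exact hne (by rw [hreal s (h s (Ioo_subset_Icc_self hs)), hWs]; simp)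
    · exact hne (by rw [himag s (h s (Ioo_subset_Icc_self hs)), hWs]; simp)
  obtain ⟨q, hq⟩ := moments (2 * N) W hWc h0
    (fun i => τ ((i : ℕ) / 2) - if (i : ℕ) = 0 then 0 else τ (((i : ℕ) - 1) / 2))
  refine ⟨q, ?_⟩
  have hint : ∀ a b : ℝ, IntervalIntegrable (fun s : ℝ => ((q.eval s : ℝ) : ℂ) * D B s) volume a b :=
    fun a b => ((Complex.continuous_ofReal.comp q.continuous).mul hDc).intervalIntegrable _ _
  have hstep : ∀ i : ℕ, (hi : i < 2 * N) →
      ∫ s in ((i : ℝ) - 1)..(i : ℝ), ((q.eval s : ℝ) : ℂ) * D B s =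
      ((τ (i / 2) - if i = 0 then 0 else τ ((i - 1) / 2) : ℝ) : ℂ) := by
    intro i hi
    have hqi := hq ⟨i, hi⟩
    simp only at hqi
    rcases hcase i with h | ⟨hodd, h⟩
    · have e : ∫ s in ((i : ℝ) - 1)..(i : ℝ), ((q.eval s : ℝ) : ℂ) * D B s =
          ∫ s in ((i : ℝ) - 1)..(i : ℝ), ((q.eval s * W s : ℝ) : ℂ) := by
        apply intervalIntegral.integral_congr
        intro s hs
        rw [uIcc_of_le (by linarith)] at hs
        simp only
        rw [hreal s (h s hs)]
        push_cast
        ring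
      rw [e, intervalIntegral.integral_ofReal, hqi]
    · have e : ∫ s in ((i : ℝ) - 1)..(i : ℝ), ((q.eval s : ℝ) : ℂ) * D B s =
          ∫ s in ((i : ℝ) - 1)..(i : ℝ), Complex.I * ((q.eval s * W s : ℝ) : ℂ) := by
        apply intervalIntegral.integral_congr
        intro s hs
        rw [uIcc_of_le (by linarith)] at hs
        simp only
        rw [himag s (h s hs)]
        push_cast
        ring
      rw [e, intervalIntegral.integral_const_mul, intervalIntegral.integral_ofReal, hqi]
      have h1 : i ≠ 0 := by omega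
      have h2 : (i - 1) / 2 = i / 2 := by omega
      rw [if_neg h1, h2, sub_self]
      simp
  intro i
  induction i with
  | zero =>
    intro hi
    have := hstep 0 hi
    simpa using this
  | succ i ih =>
    intro hi
    have h1 := ih (by omega)
    have h2 := hstep (i + 1) hi
    rw [← intervalIntegral.integral_add_adjacent_intervals (hint (-1) i) (hint i _), h1]
    have e : (((i + 1 : ℕ) : ℝ) - 1) = (i : ℝ) := by push_cast; ring
    rw [e] at h2
    rw [h2, if_neg (by omega), Nat.add_sub_cancel]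
    push_cast
    ring

theorem bvp (N : ℕ) (hN : 0 < N) (B : Finset ℕ) (hB : ∀ k ∈ B, k < N) (τ : ℕ → ℝ) :
    ∃ v : ℂ → ℂ, Continuous v ∧ (∀ z : ℂ, 0 < z.im → DifferentiableAt ℂ v z) ∧
      (∀ x : ℝ, (∀ k ∈ B, x ∉ Ioo ((2 * k : ℕ) : ℝ) ((2 * k + 1 : ℕ) : ℝ)) → conj (v x) = v x) ∧
      (∀ x : ℝ, ∀ k ∈ B, x ∈ Icc ((2 * k : ℕ) : ℝ) ((2 * k + 1 : ℕ) : ℝ) →
        conj (v x) = ((2 * τ k : ℝ) : ℂ) - v x) ∧ v (-1) = 0 := by
  obtain ⟨q, hq⟩ := values N B τ
  set g : ℂ → ℂ := fun z => (q.map (algebraMap ℝ ℂ)).eval z * D B z with hg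
  have hgc : Continuous g := (Polynomial.continuous _).mul (D_continuous B)
  have hgx : ∀ s : ℝ, g s = ((q.eval s : ℝ) : ℂ) * D B s := by
    intro s
    have : (q.map (algebraMap ℝ ℂ)).eval (s : ℂ) = ((q.eval s : ℝ) : ℂ) := by
      rw [Polynomial.eval_map]
      exact Polynomial.eval₂_at_apply (algebraMap ℝ ℂ) s
    rw [hg]
    simp only
    rw [this]
  obtain ⟨v, hvc, hvd, hv⟩ := primitive g hgc (fun z hz =>
    ((q.map (algebraMap ℝ ℂ)).differentiable z).mul (D_differentiableAt B hz)) (-1)
  have hint : ∀ a b : ℝ, IntervalIntegrable (fun s : ℝ => g s) volume a b :=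
    fun a b => (hgc.comp Complex.continuous_ofReal).intervalIntegrable _ _
  have hvi : ∀ i : ℕ, i < 2 * N → v (i : ℝ) = ((τ (i / 2) : ℝ) : ℂ) := by
    intro i hi
    rw [hv, ← hq i hi]
    exact intervalIntegral.integral_congr fun s _ => hgx s
  have hadd : ∀ a b : ℝ, v b = v a + ∫ s in a..b, g s := by
    intro a b
    rw [hv, hv, intervalIntegral.integral_add_adjacent_intervals (hint _ _) (hint _ _)]
  have hconjr : ∀ a b : ℝ, (∀ s ∈ [[a, b]], conj (D B (s : ℝ)) = D B s) →
      conj (∫ s in a..b, g s) = ∫ s in a..b, g s := by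
    intro a b h
    rw [← intervalIntegral.intervalIntegral_conj]
    apply intervalIntegral.integral_congr
    intro s hs
    simp only
    rw [hgx, map_mul, h s hs, Complex.conj_ofReal]
  have hconji : ∀ a b : ℝ, (∀ s ∈ [[a, b]], conj (D B (s : ℝ)) = - D B s) →
      conj (∫ s in a..b, g s) = - ∫ s in a..b, g s := by
    intro a b h
    rw [← intervalIntegral.intervalIntegral_conj, ← intervalIntegral.integral_neg]
    apply intervalIntegral.integral_congr
    intro s hs
    simp only
    rw [hgx, map_mul, h s hs, Complex.conj_ofReal]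
    ring
  refine ⟨v, hvc, hvd, ?_, ?_, ?_⟩
  · intro x hx
    rcases lt_or_ge x 0 with h | h
    · have e : v x = ∫ s in (-1 : ℝ)..x, g s := hv x
      rw [e]
      apply hconjr
      intro s hs
      apply D_conj_out
      intro k _
      apply notMem_Ioo_neg
      have := hs.2
      exact this.trans (max_le (by norm_num) h.le)
    · -- the largest integer point to the left of `x`
      obtain ⟨i, hi2, hix, hgap⟩ : ∃ i : ℕ, i < 2 * N ∧ (i : ℝ) ≤ x ∧
          (x < (i : ℝ) + 1 ∨ i + 1 = 2 * N) := by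
        rcases lt_or_ge ⌊x⌋₊ (2 * N) with h1 | h1
        · exact ⟨⌊x⌋₊, h1, Nat.floor_le h, Or.inl (Nat.lt_floor_add_one x)⟩
        · refine ⟨2 * N - 1, by omega, ?_, Or.inr (by omega)⟩
          have h2 : ((2 * N - 1 : ℕ) : ℝ) ≤ ⌊x⌋₊ := by exact_mod_cast (by omega)
          exact h2.trans (Nat.floor_le h)
      rw [hadd i x, map_add, hvi i hi2, Complex.conj_ofReal]
      congr 1
      by_cases hik : ∃ k ∈ B, i = 2 * k
      · obtain ⟨k, hk, rfl⟩ := hik
        have hkN := hB k hk
        have hx1 : x < ((2 * k : ℕ) : ℝ) + 1 := by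
          rcases hgap with h1 | h1
          · exact h1
          · omega
        have h2 : x = ((2 * k : ℕ) : ℝ) := by
          by_contra h3
          refine hx k hk ⟨lt_of_le_of_ne hix (Ne.symm h3), ?_⟩
          push_cast at hx1 ⊢
          exact hx1
        rw [h2]
        simp
      · apply hconjr
        intro s hs
        rw [uIcc_of_le hix] at hs
        apply D_conj_out
        intro k hk
        rcases hgap with h1 | h1
        · exact notMem_Ioo (i := i) (fun h => hik ⟨k, hk, h⟩) ⟨hs.1, hs.2.trans h1.le⟩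
        · intro h2
          have hkN := hB k hk
          have h3 : ((2 * k + 1 : ℕ) : ℝ) ≤ i := by exact_mod_cast (by omega)
          linarith [h2.2, hs.1]
  · intro x k hk hx
    have hkN := hB k hk
    have e := hadd ((2 * k : ℕ) : ℝ) x
    have h1 := hvi (2 * k) (by omega)
    rw [h1, show 2 * k / 2 = k by omega] at e
    have h2 : conj (∫ s in ((2 * k : ℕ) : ℝ)..x, g s) = - ∫ s in ((2 * k : ℕ) : ℝ)..x, g s := by
      apply hconji
      intro s hs
      rw [uIcc_of_le hx.1] at hs
      exact D_conj_in B hk ⟨hs.1, hs.2.trans hx.2⟩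
    rw [e, map_add, Complex.conj_ofReal, h2]
    push_cast
    ring
  · have := hv (-1)
    rw [intervalIntegral.integral_same] at this
    simpa using this

end Pool.Agent.J4.H15.MF
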