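import Mathlib
import Pool.Agent.H18R3.Refl
import Pool.Agent.Helper344.Ent.P_consts
import Pool.Agent.Helper344.Ent.P_diffT
import Pool.Agent.Helper344.Ent.P_parity
import Pool.Agent.J4.H15.MF.Bvp

/-!
# Entire solutions of two quadratic equations

For finite sets `A ⊆ B` of natural numbers there are entire functions `X, Y, Z, W`, with `Z` and `W`
not both zero, and `X ^ 2 = b_A (2 W ^ 2 - Z ^ 2)`, `Y ^ 2 = b_{B \ A} (Z ^ 2 - W ^ 2)`, where `b_A`
is the product of the `(z - 2 k) (z - 2 k - 1)`, `k ∈ A`.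
-/

set_option autoImplicit false

namespace Pool.Agent.J4.H15.MF

open Filter Topology Set Complex
open scoped ComplexConjugate Interval
open Pool.Agent.Helper344.Ent (P Q R S A B kap)

theorem reflect {f : ℂ → ℂ} (hc : Continuous f) (hd : ∀ z : ℂ, 0 < z.im → DifferentiableAt ℂ f z)
    (hr : ∀ x : ℝ, conj (f x) = f x) :
    ∃ F : ℂ → ℂ, Differentiable ℂ F ∧ ∀ z : ℂ, 0 ≤ z.im → F z = f z := by
  classical
  set F : ℂ → ℂ := fun z => if 0 ≤ z.im then f z else conj (f (conj z)) with hF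
  have hFc : Continuous F := by
    apply Continuous.if_le hc _ continuous_const Complex.continuous_im
    · intro z hz
      have h1 : z = (z.re : ℂ) := Complex.ext (by simp) (by simp [← hz])
      have h2 : conj z = z := Complex.conj_eq_iff_im.2 hz.symm
      rw [h2, h1, hr]
    · exact Complex.continuous_conj.comp (hc.comp Complex.continuous_conj)
  have hFd : ∀ z : ℂ, z.im ≠ 0 → DifferentiableAt ℂ F z := by
    intro z hz
    rcases lt_or_gt_of_ne hz with h0 | h0
    · have hdc : DifferentiableAt ℂ f (conj z) := hd _ (by simpa using h0)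
      have h1 : DifferentiableAt ℂ (conj ∘ f ∘ conj) z := by
        have := DifferentiableAt.conj_conj (𝕜 := ℂ) hdc
        rwa [Complex.conj_conj] at this
      apply h1.congr_of_eventuallyEq
      filter_upwards [(isOpen_lt Complex.continuous_im continuous_const).mem_nhds h0] with y hy
      have hy' : ¬ (0 ≤ y.im) := not_le.2 hy
      simp [hF, hy']
    · apply (hd z h0).congr_of_eventuallyEq
      filter_upwards [(isOpen_lt continuous_const Complex.continuous_im).mem_nhds h0] with y hy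
      have hy' : 0 ≤ y.im := le_of_lt hy
      simp [hF, hy']
  refine ⟨F, fun z => ?_, fun z hz => by simp [hF, hz]⟩
  have h := Pool.Agent.H18R3.holo_of_continuous (a := ‖z‖ + 1) hFc.continuousOn
    (fun ζ hζ => (hFd ζ hζ.2).differentiableWithinAt)
  exact h.differentiableAt (Metric.isOpen_ball.mem_nhds (by simp))

theorem P_conj (z : ℂ) : conj (P I z) = P I (conj z) := by
  unfold P
  rw [jacobiTheta₂_conj]
  congr 1
  simp

theorem Q_conj (z : ℂ) : conj (Q I z) = Q I (conj z) := by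
  unfold Q
  rw [P_conj, map_add, map_div₀, map_one, map_ofNat]

theorem R_conj (z : ℂ) : conj (R I z) = R I (conj z) := by
  rw [← (Pool.Agent.Helper344.Ent.parity I (conj z)).2.2.1]
  unfold R
  rw [map_mul, ← Complex.exp_conj, jacobiTheta₂_conj]
  have e1 : conj (Real.pi * I * I / 4 + Real.pi * I * z) =
      Real.pi * I * I / 4 + Real.pi * I * -conj z := by
    simp only [map_add, map_mul, map_div₀, Complex.conj_ofReal, Complex.conj_I, map_ofNat]
    ring
  have e2 : jacobiTheta₂ (conj (z + I / 2)) (-conj I) = jacobiTheta₂ (-conj z + I / 2) I := by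
    rw [← jacobiTheta₂_neg_left]
    congr 1
    · simp only [map_add, map_div₀, Complex.conj_I, map_ofNat]
      ring
    · simp
  rw [e1, e2]

theorem S_conj (z : ℂ) : conj (S I z) = S I (conj z) := by
  unfold S
  rw [R_conj, map_add, map_div₀, map_one, map_ofNat]

/-- `Q`, `R` and `P`, `S` (nome `exp (-π)`): the two quadratic relations -/
theorem rel (z : ℂ) : (kap * S I z) ^ 2 = 2 * Q I z ^ 2 - (kap * P I z) ^ 2 ∧
    R I z ^ 2 = (kap * P I z) ^ 2 - Q I z ^ 2 := by
  obtain ⟨hP0, hQ0, hR0, hA, hB, hk, h1, h2, h3⟩ := Pool.Agent.Helper344.Ent.consts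
  obtain ⟨s1, s2, s3, s4⟩ := Pool.Agent.Helper344.Ent.squares (τ := I) (by simp) z
  have hk2 : kap ^ 2 * Q I 0 ^ 2 = P I 0 ^ 2 := by
    unfold kap
    rw [div_pow]
    field_simp
  set a := A I 0
  set b := B I 0
  have hab : (2 * a * b : ℂ) ≠ 0 := mul_ne_zero (mul_ne_zero two_ne_zero hA) hB
  have hk3 : kap ^ 2 * (2 * a * b) = a ^ 2 + b ^ 2 := by rw [← h3, hk2, h1]
  have hrel : a ^ 2 - b ^ 2 = 2 * a * b := by rw [← h3, h2]
  constructor
  · apply mul_left_cancel₀ hab
    rw [mul_pow, mul_pow, s1, s2, s4]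
    linear_combination (a * A I z + b * B I z + (b * A I z - a * B I z)) * hk3 +
      ((a - b) * A I z - (a + b) * B I z) * hrel
  · apply mul_left_cancel₀ hab
    rw [mul_pow, s1, s2, s3]
    linear_combination (-(a * A I z + b * B I z)) * hk3 + (-a * A I z + b * B I z) * hrel

theorem P_one_sub (z : ℂ) : P I (1 - z) = P I z := by
  have h1 : P I (-z + 1) = P I (-z) := jacobiTheta₂_add_left _ _
  rw [show 1 - z = -z + 1 by ring, h1, (Pool.Agent.Helper344.Ent.parity I z).1]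

theorem Q_one_sub (z : ℂ) : Q I (1 - z) = Q I z := by
  have h1 : Q I (-z + 1) = Q I (-z) := by
    unfold Q P
    rw [show -z + 1 + 1 / 2 = -z + 1 / 2 + 1 by ring, jacobiTheta₂_add_left]
  rw [show 1 - z = -z + 1 by ring, h1, (Pool.Agent.Helper344.Ent.parity I z).2.1]

theorem R_one_sub (z : ℂ) : R I (1 - z) = - R I z := by
  rw [show 1 - z = -z + 1 by ring, Pool.Agent.Helper344.Ent.R_add_one_aux,
    (Pool.Agent.Helper344.Ent.parity I z).2.2.1]

theorem S_one_sub (z : ℂ) : S I (1 - z) = S I z := by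
  have h1 : S I (-z + 1) = - S I (-z) := by
    unfold S
    rw [show -z + 1 + 1 / 2 = -z + 1 / 2 + 1 by ring, Pool.Agent.Helper344.Ent.R_add_one_aux]
  rw [show 1 - z = -z + 1 by ring, h1, (Pool.Agent.Helper344.Ent.parity I z).2.2.2, neg_neg]

theorem eq_of_eq_upper {f g : ℂ → ℂ} (hf : Differentiable ℂ f) (hg : Differentiable ℂ g)
    (h : ∀ z : ℂ, 0 ≤ z.im → f z = g z) : f = g := by
  have h1 : f =ᶠ[𝓝 I] g := by
    filter_upwards [(isOpen_lt continuous_const Complex.continuous_im).mem_nhds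
      (show (0 : ℝ) < I.im by simp)] with z hz
    exact h z (le_of_lt hz)
  exact AnalyticOnNhd.eq_of_eventuallyEq (fun z _ => hf.analyticAt z) (fun z _ => hg.analyticAt z) h1

theorem bb_differentiable (A : Finset ℕ) : Differentiable ℂ (bb A) := by
  have : bb A = fun z : ℂ => ∏ k ∈ A, ((z - ((2 * k : ℕ) : ℂ)) * (z - ((2 * k + 1 : ℕ) : ℂ))) := rfl
  rw [this]
  exact Differentiable.fun_finsetProd fun k _ => by fun_prop

/-- existence of the entire solutions -/
theorem exist (A₀ B₀ : Finset ℕ) (hAB : A₀ ⊆ B₀) : ∃ X Y Z W : ℂ → ℂ,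
    Differentiable ℂ X ∧ Differentiable ℂ Y ∧ Differentiable ℂ Z ∧ Differentiable ℂ W ∧
    (∀ z, X z ^ 2 = bb A₀ z * (2 * W z ^ 2 - Z z ^ 2)) ∧
    (∀ z, Y z ^ 2 = bb (B₀ \ A₀) z * (Z z ^ 2 - W z ^ 2)) ∧ Z ≠ 0 := by
  classical
  obtain ⟨N, hN, hBN⟩ : ∃ N : ℕ, 0 < N ∧ ∀ k ∈ B₀, k < N := by
    refine ⟨B₀.sup id + 1, by omega, fun k hk => ?_⟩
    have := Finset.le_sup (f := id) hk
    simp only [id] at this
    omega
  obtain ⟨v, hvc, hvd, hv1, hv2, hv0⟩ := bvp N hN B₀ hBN (fun k => if k ∈ A₀ then 0 else 1 / 2)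
  obtain ⟨dP, dQ, dR, dS, -, -⟩ := Pool.Agent.Helper344.Ent.diffT
  have par := Pool.Agent.Helper344.Ent.parity I
  -- the three kinds of real points
  have hx : ∀ x : ℝ,
      (conj (v x) = v x ∧ conj (D A₀ x) = D A₀ x ∧ conj (D (B₀ \ A₀) x) = D (B₀ \ A₀) x) ∨
      (conj (v x) = - v x ∧ conj (D A₀ x) = - D A₀ x ∧ conj (D (B₀ \ A₀) x) = D (B₀ \ A₀) x) ∨
      (conj (v x) = 1 - v x ∧ conj (D A₀ x) = D A₀ x ∧
        conj (D (B₀ \ A₀) x) = - D (B₀ \ A₀) x) := by
    intro x
    by_cases h : ∃ k ∈ B₀, x ∈ Icc ((2 * k : ℕ) : ℝ) ((2 * k + 1 : ℕ) : ℝ)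
    · obtain ⟨k, hk, hxk⟩ := h
      have h2 := hv2 x k hk hxk
      right
      by_cases hkA : k ∈ A₀
      · left
        rw [if_pos hkA] at h2
        refine ⟨by rw [h2]; simp, D_conj_in A₀ hkA hxk, D_conj_out _ fun j hj => ?_⟩
        apply notMem_of_mem_Icc _ hxk
        rintro rfl
        exact (Finset.mem_sdiff.1 hj).2 hkA
      · right
        rw [if_neg hkA] at h2
        refine ⟨by rw [h2]; simp, D_conj_out _ fun j hj => ?_,
          D_conj_in _ (Finset.mem_sdiff.2 ⟨hk, hkA⟩) hxk⟩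
        apply notMem_of_mem_Icc _ hxk
        rintro rfl
        exact hkA hj
    · left
      push Not at h
      have h' : ∀ k ∈ B₀, x ∉ Ioo ((2 * k : ℕ) : ℝ) ((2 * k + 1 : ℕ) : ℝ) :=
        fun k hk hxk => h k hk (Ioo_subset_Icc_self hxk)
      exact ⟨hv1 x h', D_conj_out _ fun k hk => h' k (hAB hk),
        D_conj_out _ fun k hk => h' k (Finset.mem_sdiff.1 hk).1⟩
  obtain ⟨F1, dF1, hF1⟩ := reflect (f := fun z => D A₀ z * S I (v z))
    ((D_continuous A₀).mul (dS.continuous.comp hvc))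
    (fun z hz => (D_differentiableAt A₀ hz).mul ((dS (v z)).comp z (hvd z hz))) (by
      intro x
      rw [map_mul, S_conj]
      rcases hx x with ⟨h1, h2, -⟩ | ⟨h1, h2, -⟩ | ⟨h1, h2, -⟩
      · rw [h1, h2]
      · rw [h1, h2, (par _).2.2.2]; ring
      · rw [h1, h2, S_one_sub])
  obtain ⟨F2, dF2, hF2⟩ := reflect (f := fun z => D (B₀ \ A₀) z * R I (v z))
    ((D_continuous _).mul (dR.continuous.comp hvc))
    (fun z hz => (D_differentiableAt _ hz).mul ((dR (v z)).comp z (hvd z hz))) (by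
      intro x
      rw [map_mul, R_conj]
      rcases hx x with ⟨h1, -, h2⟩ | ⟨h1, -, h2⟩ | ⟨h1, -, h2⟩
      · rw [h1, h2]
      · rw [h1, h2, (par _).2.2.1]
      · rw [h1, h2, R_one_sub]; ring)
  obtain ⟨F3, dF3, hF3⟩ := reflect (f := fun z => P I (v z)) (dP.continuous.comp hvc)
    (fun z hz => (dP (v z)).comp z (hvd z hz)) (by
      intro x
      rw [P_conj]
      rcases hx x with ⟨h1, -⟩ | ⟨h1, -⟩ | ⟨h1, -⟩
      · rw [h1]
      · rw [h1, (par _).1]
      · rw [h1, P_one_sub])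
  obtain ⟨F4, dF4, hF4⟩ := reflect (f := fun z => Q I (v z)) (dQ.continuous.comp hvc)
    (fun z hz => (dQ (v z)).comp z (hvd z hz)) (by
      intro x
      rw [Q_conj]
      rcases hx x with ⟨h1, -⟩ | ⟨h1, -⟩ | ⟨h1, -⟩
      · rw [h1]
      · rw [h1, (par _).2.1]
      · rw [h1, Q_one_sub])
  obtain ⟨hP0, hQ0, hR0, hA, hB, hk, -, -, -⟩ := Pool.Agent.Helper344.Ent.consts
  refine ⟨fun z => kap * F1 z, F2, fun z => kap * F3 z, F4, dF1.const_mul _, dF2,
    dF3.const_mul _, dF4, ?_, ?_, ?_⟩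
  · have h1 : (fun z => (kap * F1 z) ^ 2) =
        fun z => bb A₀ z * (2 * F4 z ^ 2 - (kap * F3 z) ^ 2) := by
      apply eq_of_eq_upper ((dF1.const_mul _).pow 2)
      · exact (bb_differentiable A₀).mul (((dF4.pow 2).const_mul _).sub ((dF3.const_mul _).pow 2))
      · intro z hz
        show (kap * F1 z) ^ 2 = _
        rw [hF1 z hz, hF3 z hz, hF4 z hz, ← D_sq A₀ hz, ← (rel (v z)).1]
        ring
    exact fun z => congrFun h1 z
  · have h1 : (fun z => F2 z ^ 2) =
        fun z => bb (B₀ \ A₀) z * ((kap * F3 z) ^ 2 - F4 z ^ 2) := by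
      apply eq_of_eq_upper (dF2.pow 2)
      · exact (bb_differentiable _).mul (((dF3.const_mul _).pow 2).sub (dF4.pow 2))
      · intro z hz
        show F2 z ^ 2 = _
        rw [hF2 z hz, hF3 z hz, hF4 z hz, ← D_sq _ hz, ← (rel (v z)).2]
        ring
    exact fun z => congrFun h1 z
  · intro h
    have h1 := congrFun h (-1 : ℂ)
    simp only [Pi.zero_apply] at h1
    rw [hF3 (-1) (by simp), hv0] at h1
    exact (mul_ne_zero hk hP0) h1

end Pool.Agent.J4.H15.MF
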