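import Mathlib
import Pool.Agent.J4.H15.MF.Logic

/-!
# The independence property, the n-independence property and the tree property of the second kind
-/

set_option autoImplicit false

namespace Pool.Agent.J4.H15.MF

open Pool.Agent.W882.Nip3
open FirstOrder FirstOrder.Ring FirstOrder.Language

/-- `(z - 2 k) (z - 2 k - 1)` -/
def xx {K : Type*} [Field K] (z : K) (k : ℕ) : K :=
  (z - ((2 * k : ℕ) : K)) * (z - ((2 * k + 1 : ℕ) : K))

/-- `Rel` holds for the products over sets `A ⊆ B`, and there are `N` discrete orders, at which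
exactly one of the first `N` elements `xx z k` has odd order -/
def Good (K : Type) [Field K] (N : ℕ) (z : K) : Prop :=
  (∀ A B : Finset ℕ, A ⊆ B → Rel (∏ k ∈ A, xx z k) (∏ k ∈ B, xx z k)) ∧
  (∀ k, xx z k ≠ 0) ∧
  ∀ k < N, ∃ v : OrdFn K, Odd (v.ord (xx z k)) ∧ ∀ j < N, j ≠ k → Even (v.ord (xx z j))

section

variable {K : Type} [Field K] {N : ℕ} {z : K}

theorem Good.even_prod (h : Good K N z) {k : ℕ} {v : OrdFn K}
    (hv : ∀ j < N, j ≠ k → Even (v.ord (xx z j))) {S : Finset ℕ} (hS : ∀ j ∈ S, j < N)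
    (hk : k ∉ S) : Even (v.ord (∏ j ∈ S, xx z j)) := by
  rw [v.prod S _ fun j _ => h.2.1 j]
  exact Finset.even_sum _ fun j hj => hv j (hS j hj) (by rintro rfl; exact hk hj)

theorem Good.odd_prod (h : Good K N z) {k : ℕ} {v : OrdFn K} (ho : Odd (v.ord (xx z k)))
    (hv : ∀ j < N, j ≠ k → Even (v.ord (xx z j))) {S : Finset ℕ} (hS : ∀ j ∈ S, j < N)
    (hk : k ∈ S) : Odd (v.ord (∏ j ∈ S, xx z j)) := by
  classical
  rw [← Finset.mul_prod_erase S _ hk, v.mul _ _ (h.2.1 k)
    (Finset.prod_ne_zero_iff.2 fun j _ => h.2.1 j)]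
  refine ho.add_even (h.even_prod hv (fun j hj => hS j (Finset.mem_of_mem_erase hj)) ?_)
  simp

theorem Good.rel_iff (h : Good K N z) {k : ℕ} (hk : k < N) {S : Finset ℕ}
    (hS : ∀ j ∈ S, j < N) : Rel (xx z k) (∏ j ∈ S, xx z j) ↔ k ∈ S := by
  constructor
  · intro h1
    by_contra hkS
    obtain ⟨v, ho, hv⟩ := h.2.2 k hk
    have h2 := h1.odd v (h.2.1 k) ho
    exact Int.not_odd_iff_even.2 (h.even_prod hv hS hkS) h2.2
  · intro h1
    have := h.1 {k} S (by simpa using h1)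
    rwa [Finset.prod_singleton] at this

end

theorem not_nip {K : Type} [Field K] [CompatibleRing K] (h : ∀ N, ∃ z, Good K N z) :
    ¬ NIPField K := by
  intro hN
  obtain ⟨n, hn⟩ := hN 1 1 (Pform (FreeCommRing.of (Sum.inl 0)) (FreeCommRing.of (Sum.inr 0)))
  obtain ⟨z, hz⟩ := h n
  obtain ⟨i, J, hiJ⟩ := hn (fun i _ => xx z i) (fun J _ => ∏ j ∈ J, xx z j)
  apply hiJ
  rw [realize_Pform]
  simp only [FreeCommRing.lift_of, Sum.elim_inl, Sum.elim_inr]
  have h1 : ∏ j ∈ J, xx z j = ∏ j ∈ J.map Fin.valEmbedding, xx z j := by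
    rw [Finset.prod_map]; rfl
  rw [h1, hz.rel_iff i.2 (by simp)]
  simp only [Finset.mem_map, Fin.valEmbedding_apply]
  constructor
  · rintro ⟨a, ha, he⟩
    rwa [← Fin.ext he]
  · exact fun hi => ⟨i, hi, rfl⟩

/-- the code of a tuple -/
def code (n m : ℕ) (i : Fin n → Fin m) : ℕ := ∑ j : Fin n, (i j : ℕ) * m ^ (j : ℕ)

theorem code_lt (n m : ℕ) (i : Fin n → Fin m) : code n m i < m ^ n :=
  (finFunctionFinEquiv i).2

theorem code_injective (n m : ℕ) : Function.Injective (code n m) := by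
  intro i i' h
  apply finFunctionFinEquiv.injective
  exact Fin.ext h

theorem not_nipn {K : Type} [Field K] [CompatibleRing K] (h : ∀ N, ∃ z, Good K N z) (n : ℕ) :
    ¬ NIPnField n K := by
  classical
  intro hN
  let zz : FreeCommRing (Fin 2 ⊕ (Fin n × Fin 1)) := FreeCommRing.of (Sum.inl 1)
  let ss : FreeCommRing (Fin 2 ⊕ (Fin n × Fin 1)) :=
    ∑ j : Fin n, FreeCommRing.of (Sum.inr (j, 0))
  apply hN 2 1 (Pform ((zz - 2 * ss) * (zz - (2 * ss + 1))) (FreeCommRing.of (Sum.inl 0)))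
  intro m
  obtain ⟨z, hz⟩ := h (m ^ n)
  refine ⟨fun j i _ => (((i : ℕ) * m ^ (j : ℕ) : ℕ) : K), fun S => ?_⟩
  refine ⟨![∏ j ∈ (Finset.univ.filter (· ∈ S)).image (code n m), xx z j, z], fun i => ?_⟩
  rw [realize_Pform]
  have h1 : FreeCommRing.lift (Sum.elim
      ![∏ j ∈ (Finset.univ.filter (· ∈ S)).image (code n m), xx z j, z]
      (fun jl : Fin n × Fin 1 => ((((i jl.1 : Fin m) : ℕ) * m ^ (jl.1 : ℕ) : ℕ) : K)))
      ((zz - 2 * ss) * (zz - (2 * ss + 1))) = xx z (code n m i) := by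
    simp only [zz, ss, map_mul, map_sub, map_add, map_one, map_ofNat, map_sum,
      FreeCommRing.lift_of, Sum.elim_inl, Sum.elim_inr, Matrix.cons_val_one,
      Matrix.cons_val_fin_one]
    unfold xx code
    push_cast
    rfl
  rw [h1]
  simp only [FreeCommRing.lift_of, Sum.elim_inl, Matrix.cons_val_zero]
  rw [hz.rel_iff (code_lt n m i)]
  · simp only [Finset.mem_image, Finset.mem_filter, Finset.mem_univ, true_and]
    constructor
    · rintro ⟨i', hi', he⟩
      rwa [code_injective n m he] at hi'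
    · exact fun hi => ⟨i, hi, rfl⟩
  · intro j hj
    simp only [Finset.mem_image, Finset.mem_filter, Finset.mem_univ, true_and] at hj
    obtain ⟨i', -, rfl⟩ := hj
    exact code_lt n m i'

theorem not_ntp2 {K : Type} [Field K] [CompatibleRing K] (h : ∀ N, ∃ z, Good K N z) :
    ¬ NTP2Field K := by
  classical
  intro hN
  let u : FreeCommRing (Fin 1 ⊕ Fin 2) := FreeCommRing.of (Sum.inl 0)
  let w : FreeCommRing (Fin 1 ⊕ Fin 2) := FreeCommRing.of (Sum.inr 0)
  let v : FreeCommRing (Fin 1 ⊕ Fin 2) := FreeCommRing.of (Sum.inr 1)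
  obtain ⟨m, hm⟩ := hN 1 2 (Pform w u ⊓ Pform (v * w) (u * v * w))
  obtain ⟨z, hz⟩ := h (m * m)
  -- the code of a position
  let c : Fin m → Fin m → ℕ := fun i j => (finProdFinEquiv (i, j) : Fin (m * m))
  have hc : ∀ i j, c i j < m * m := fun i j => (finProdFinEquiv (i, j)).2
  have hinj : ∀ i j i' j', c i j = c i' j' → i = i' ∧ j = j' := by
    intro i j i' j' h
    have := finProdFinEquiv.injective (Fin.ext h)
    simpa using this
  -- the rows
  let row : Fin m → Finset ℕ := fun i => Finset.univ.image (c i)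
  have hrow : ∀ i, ∀ k ∈ row i, k < m * m := by
    intro i k hk
    simp only [row, Finset.mem_image, Finset.mem_univ, true_and] at hk
    obtain ⟨j, rfl⟩ := hk
    exact hc i j
  have hmem : ∀ i j, c i j ∈ row i := fun i j => by simp [row]
  have hval : ∀ (x : Fin 1 → K) (p q : K),
      (Pform w u ⊓ Pform (v * w) (u * v * w)).Realize (Sum.elim x ![p, q]) ↔
        Rel p (x 0) ∧ Rel (q * p) (x 0 * q * p) := by
    intro x p q
    rw [Formula.realize_inf, realize_Pform, realize_Pform]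
    simp [u, v, w]
  obtain ⟨η, hη⟩ := hm (fun i j => ![xx z (c i j), ∏ k ∈ row i, xx z k]) (by
    rintro i j j' hjj ⟨x, h1, h2⟩
    rw [hval] at h1 h2
    have hne : c i j ≠ c i j' := fun h => hjj (hinj _ _ _ _ h).2
    obtain ⟨o, ho, hv⟩ := hz.2.2 (c i j') (hc i j')
    obtain ⟨hx0, hx⟩ := h2.1.odd o (hz.2.1 _) ho
    have h3 : (∏ k ∈ row i, xx z k) ≠ 0 := Finset.prod_ne_zero_iff.2 fun j _ => hz.2.1 j
    have h4 : Odd (o.ord (∏ k ∈ row i, xx z k)) := hz.odd_prod ho hv (hrow i) (hmem i j')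
    have h5 : Even (o.ord (xx z (c i j))) := hv _ (hc i j) hne
    obtain ⟨-, h6⟩ := h1.2.odd o (mul_ne_zero h3 (hz.2.1 _)) (by
      rw [o.mul _ _ h3 (hz.2.1 _)]
      exact h4.add_even h5)
    rw [o.mul _ _ (mul_ne_zero hx0 h3) (hz.2.1 _), o.mul _ _ hx0 h3] at h6
    exact Int.not_odd_iff_even.2 ((hx.add_odd h4).add h5) h6)
  apply hη
  let U : Finset ℕ := Finset.univ.image fun i => c i (η i)
  refine ⟨fun _ => ∏ k ∈ U, xx z k, fun i => ?_⟩
  rw [hval]
  have hkU : c i (η i) ∈ U := by simp [U]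
  have hU : ∀ k ∈ U, k ∈ row i → k = c i (η i) := by
    intro k hk hki
    simp only [U, row, Finset.mem_image, Finset.mem_univ, true_and] at hk hki
    obtain ⟨i', rfl⟩ := hk
    obtain ⟨j, hj⟩ := hki
    obtain ⟨rfl, -⟩ := hinj _ _ _ _ hj
    rfl
  refine ⟨?_, ?_⟩
  · have := hz.1 {c i (η i)} U (by simpa using hkU)
    rwa [Finset.prod_singleton] at this
  · set k := c i (η i) with hk
    have e1 : (∏ j ∈ row i, xx z j) * xx z k = (∏ j ∈ (row i).erase k, xx z j) * xx z k ^ 2 := by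
      rw [← Finset.mul_prod_erase (row i) _ (hmem i (η i))]
      ring
    have hdis : Disjoint (U.erase k) (row i) := by
      rw [Finset.disjoint_left]
      intro j hj hj2
      rw [Finset.mem_erase] at hj
      exact hj.1 (hU j hj.2 hj2)
    have e2 : (∏ j ∈ U, xx z j) * (∏ j ∈ row i, xx z j) * xx z k =
        (∏ j ∈ U.erase k ∪ row i, xx z j) * xx z k ^ 2 := by
      rw [Finset.prod_union hdis, ← Finset.mul_prod_erase U _ hkU]
      ring
    rw [e1, e2]
    refine (hz.1 _ _ ?_).sq (hz.2.1 _) (hz.2.1 _)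
    exact (Finset.erase_subset _ _).trans Finset.subset_union_right

/-- the field is wild -/
theorem not_tame {K : Type} [Field K] [CompatibleRing K] (h : ∀ N, ∃ z, Good K N z) :
    ¬ Tame K := by
  rintro (h1 | ⟨n, h1⟩ | h1)
  · exact not_nip h h1
  · exact not_nipn h n h1
  · exact not_ntp2 h h1

end Pool.Agent.J4.H15.MF
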