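import Mathlib
import Pool.Agent.J4.H15.MF.Pat
import Pool.Agent.J4.H15.MF.Exist

/-!
# Fields containing the entire functions, with infinitely many discrete orders
-/

set_option autoImplicit false

namespace Pool.Agent.J4.H15.MF

open Polynomial

/-- The ring of entire functions. -/
def Ent : Subring (ℂ → ℂ) where
  carrier := {f | Differentiable ℂ f}
  mul_mem' := fun hf hg => Differentiable.mul hf hg
  one_mem' := differentiable_const 1
  add_mem' := fun hf hg => Differentiable.add hf hg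
  zero_mem' := differentiable_const 0
  neg_mem' := fun hf => Differentiable.neg hf

/-- The entire function `z ↦ z - c`. -/
def lin (c : ℂ) : Ent := ⟨fun z => z - c, by
  show Differentiable ℂ fun z : ℂ => z - c
  fun_prop⟩

/-- polynomials as entire functions -/
noncomputable def pol : ℂ[X] →+* Ent where
  toFun p := ⟨fun z => p.eval z, p.differentiable⟩
  map_one' := by ext z; simp
  map_mul' p q := by ext z; simp
  map_zero' := by ext z; simp
  map_add' p q := by ext z; simp

theorem pol_X_sub_C (c : ℂ) : pol (X - C c) = lin c := by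
  ext z
  simp [pol, lin]

theorem pol_apply (p : ℂ[X]) (z : ℂ) : (pol p : ℂ → ℂ) z = p.eval z := rfl

/-- Hermite interpolation -/
theorem exists_poly (c : ℕ → ℂ) (hc : Function.Injective c) (n : ℕ) :
    ∃ h : ℂ[X], ∀ i < n, h.eval (c i) = i ∧ h.derivative.eval (c i) = 1 := by
  classical
  set s := Finset.range n
  set P := Lagrange.interpolate s c (fun i => (i : ℂ))
  set Q := Lagrange.nodal s c
  have hQ : ∀ i ∈ s, Q.derivative.eval (c i) ≠ 0 := by
    intro i hi
    rw [Lagrange.eval_nodal_derivative_eval_node_eq hi]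
    apply Lagrange.eval_nodal_not_at_node
    intro j hj hij
    exact (Finset.ne_of_mem_erase hj) (hc hij).symm
  set R := Lagrange.interpolate s c
    (fun i => (1 - P.derivative.eval (c i)) / Q.derivative.eval (c i))
  refine ⟨P + Q * R, fun i hi => ?_⟩
  have his : i ∈ s := Finset.mem_range.2 hi
  have h1 : P.eval (c i) = i := Lagrange.eval_interpolate_at_node _ hc.injOn his
  have h2 : Q.eval (c i) = 0 := Lagrange.eval_nodal_at_node his
  have h3 : R.eval (c i) = (1 - P.derivative.eval (c i)) / Q.derivative.eval (c i) :=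
    Lagrange.eval_interpolate_at_node _ hc.injOn his
  constructor
  · simp [h1, h2]
  · simp only [derivative_add, derivative_mul, eval_add, eval_mul, h2, h3]
    field_simp [hQ i his]
    ring

section

variable {K : Type} [Field K] (φ : Ent →+* K) (hφ : Function.Injective φ)

theorem pol_injective : Function.Injective pol := by
  intro p q h
  apply Polynomial.funext
  intro z
  exact congrFun (congrArg Subtype.val h) z

/-- constants have order zero -/
theorem ord_const (v : OrdFn K) {a : ℂ} (ha : a ≠ 0) : v.ord (φ (pol (C a))) = 0 := by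
  have h0 : ∀ b : ℂ, b ≠ 0 → φ (pol (C b)) ≠ 0 := by
    intro b hb h
    have : φ (pol (C b)) * φ (pol (C b⁻¹)) = 1 := by
      rw [← map_mul, ← map_mul, ← C_mul, mul_inv_cancel₀ hb, C_1, map_one, map_one]
    rw [h, zero_mul] at this
    exact zero_ne_one this
  set o := v.ord (φ (pol (C a)))
  obtain ⟨b, hb⟩ := IsAlgClosed.exists_pow_nat_eq a (n := o.natAbs + 1) (Nat.succ_pos _)
  have hb0 : b ≠ 0 := by
    rintro rfl
    rw [zero_pow (by omega)] at hb
    exact ha hb.symm
  have h1 : o = (o.natAbs + 1 : ℕ) * v.ord (φ (pol (C b))) := by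
    rw [← v.pow (h0 b hb0), ← map_pow, ← map_pow, ← C_pow, hb]
  have h2 : ((o.natAbs + 1 : ℕ) : ℤ) ∣ o := ⟨_, h1⟩
  by_contra hne
  have := Int.natAbs_dvd_natAbs.2 h2
  rw [Int.natAbs_natCast] at this
  have := Nat.le_of_dvd (Int.natAbs_pos.2 hne) this
  omega

/-- polynomials have nonnegative order -/
theorem ord_pol (v : OrdFn K) {c : ℂ} (hc : 0 < v.ord (φ (lin c))) (p : ℂ[X]) :
    φ (pol p) = 0 ∨ 0 ≤ v.ord (φ (pol p)) := by
  have hadd : ∀ x y : K, (x = 0 ∨ 0 ≤ v.ord x) → (y = 0 ∨ 0 ≤ v.ord y) →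
      (x + y = 0 ∨ 0 ≤ v.ord (x + y)) := by
    intro x y hx hy
    by_cases hx0 : x = 0
    · rw [hx0, zero_add]; exact hy
    by_cases hy0 : y = 0
    · rw [hy0, add_zero]; exact hx
    by_cases hxy : x + y = 0
    · exact Or.inl hxy
    · right
      exact le_trans (le_min (hx.resolve_left hx0) (hy.resolve_left hy0)) (v.add _ _ hx0 hy0 hxy)
  have hmul : ∀ x y : K, (x = 0 ∨ 0 ≤ v.ord x) → (y = 0 ∨ 0 ≤ v.ord y) →
      (x * y = 0 ∨ 0 ≤ v.ord (x * y)) := by
    intro x y hx hy
    by_cases hx0 : x = 0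
    · rw [hx0, zero_mul]; exact Or.inl rfl
    by_cases hy0 : y = 0
    · rw [hy0, mul_zero]; exact Or.inl rfl
    · right
      rw [v.mul _ _ hx0 hy0]
      exact add_nonneg (hx.resolve_left hx0) (hy.resolve_left hy0)
  have hC : ∀ a : ℂ, φ (pol (C a)) = 0 ∨ 0 ≤ v.ord (φ (pol (C a))) := by
    intro a
    by_cases ha : a = 0
    · left; rw [ha, C_0, map_zero, map_zero]
    · right; rw [ord_const φ v ha]
  have hX : φ (pol X) = 0 ∨ 0 ≤ v.ord (φ (pol X)) := by
    have : φ (pol X) = φ (lin c) + φ (pol (C c)) := by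
      rw [← pol_X_sub_C, ← map_add, ← map_add, sub_add_cancel]
    rw [this]
    exact hadd _ _ (Or.inr hc.le) (hC c)
  induction p using Polynomial.induction_on with
  | C a => exact hC a
  | add p q hp hq => rw [map_add, map_add]; exact hadd _ _ hp hq
  | monomial n a h =>
    rw [pow_succ, ← mul_assoc, map_mul, map_mul]
    exact hmul _ _ h hX

/-- polynomials without zero at `c` have order zero -/
theorem ord_pol_zero (v : OrdFn K) {c : ℂ} (hc0 : φ (lin c) ≠ 0) (hc : 0 < v.ord (φ (lin c)))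
    (p : ℂ[X]) (hp : p.eval c ≠ 0) : φ (pol p) ≠ 0 ∧ v.ord (φ (pol p)) = 0 := by
  obtain ⟨q, hq⟩ := X_sub_C_dvd_sub_C_eval (a := c) (p := p)
  have h1 : φ (pol p) = φ (pol (C (p.eval c))) + φ (lin c) * φ (pol q) := by
    rw [← pol_X_sub_C, ← map_mul, ← map_mul, ← hq, ← map_add, ← map_add, add_sub_cancel]
  have h2 : φ (pol (C (p.eval c))) ≠ 0 := by
    intro h
    have : φ (pol (C (p.eval c))) * φ (pol (C (p.eval c)⁻¹)) = 1 := by
      rw [← map_mul, ← map_mul, ← C_mul, mul_inv_cancel₀ hp, C_1, map_one, map_one]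
    rw [h, zero_mul] at this
    exact zero_ne_one this
  have h3 := ord_const φ v hp
  by_cases hq0 : φ (pol q) = 0
  · rw [hq0, mul_zero, add_zero] at h1
    rw [h1]
    exact ⟨h2, h3⟩
  · have h4 : 0 ≤ v.ord (φ (pol q)) := (ord_pol φ v hc q).resolve_left hq0
    have h5 := v.add_of_lt h2 (mul_ne_zero hc0 hq0) (by
      rw [h3, v.mul _ _ hc0 hq0]; omega)
    rw [← h1, h3] at h5
    exact h5

include hφ in
/-- the main theorem: infinitely many discrete orders with `z - c` of odd order -/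
theorem good_of_places (V : Set ℂ) (hV : V.Infinite)
    (hv : ∀ c ∈ V, ∃ v : OrdFn K, 0 < v.ord (φ (lin c)) ∧ Odd (v.ord (φ (lin c)))) (N : ℕ) :
    ∃ z, Good K N z := by
  classical
  obtain ⟨c, hcV⟩ : ∃ c : ℕ → ℂ, Function.Injective c ∧ ∀ i, c i ∈ V :=
    ⟨fun i => (hV.natEmbedding _ i : ℂ), fun i j h =>
      (hV.natEmbedding _).injective (Subtype.ext h), fun i => (hV.natEmbedding _ i).2⟩
  obtain ⟨hci, hcV⟩ := hcV
  obtain ⟨h, hh⟩ := exists_poly c hci (2 * N + 2)
  -- `h` is surjective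
  have hdeg : 0 < h.natDegree := by
    by_contra h0
    have h1 : h = C (h.coeff 0) := Polynomial.eq_C_of_natDegree_eq_zero (by omega)
    have h2 := (hh 0 (by omega)).2
    rw [h1] at h2
    simp at h2
  have hsurj : Function.Surjective fun z : ℂ => h.eval z := by
    intro y
    obtain ⟨z, hz⟩ := IsAlgClosed.exists_root (h - C y) (by
      rw [Polynomial.degree_sub_C (Polynomial.natDegree_pos_iff_degree_pos.1 hdeg)]
      exact (Polynomial.natDegree_pos_iff_degree_pos.1 hdeg).ne')
    refine ⟨z, ?_⟩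
    simpa [sub_eq_zero] using hz
  -- composition with `h`
  let cmp : Ent →+* Ent :=
    { toFun := fun F => ⟨fun z => F.1 (h.eval z), by
        show Differentiable ℂ fun z => F.1 (h.eval z)
        exact Differentiable.comp F.2 h.differentiable⟩
      map_one' := rfl
      map_mul' := fun _ _ => rfl
      map_zero' := rfl
      map_add' := fun _ _ => rfl }
  have hcmp : Function.Injective cmp := by
    intro F G hFG
    ext y
    obtain ⟨z, hz⟩ := hsurj y
    have := congrFun (congrArg Subtype.val hFG) z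
    simp only at hz
    rw [← hz]
    exact this
  let ψ : Ent →+* K := φ.comp cmp
  have hψ : Function.Injective ψ := hφ.comp hcmp
  refine ⟨ψ (lin 0), ?_⟩
  have hnat : ∀ k : ℕ, ψ (lin 0) - (k : K) = ψ (lin k) := by
    intro k
    rw [← map_natCast ψ k, ← map_sub]
    congr 1
    ext z
    simp [lin]
  have hxx : ∀ k : ℕ, xx (ψ (lin 0)) k = ψ (lin (2 * k : ℕ) * lin (2 * k + 1 : ℕ)) := by
    intro k
    unfold xx
    rw [hnat, hnat, map_mul]
  have hbb : ∀ A : Finset ℕ, ∏ k ∈ A, xx (ψ (lin 0)) k = ψ ⟨bb A, bb_differentiable A⟩ := by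
    intro A
    simp_rw [hxx]
    rw [← map_prod]
    congr 1
    ext z
    simp [bb, lin, Finset.prod_apply]
  have hlin : ∀ a : ℂ, ψ (lin a) ≠ 0 := by
    intro a h0
    rw [← map_zero ψ] at h0
    have := congrFun (congrArg Subtype.val (hψ h0)) (a + 1)
    simp [lin] at this
  have hbb0 : ∀ A : Finset ℕ, ψ ⟨bb A, bb_differentiable A⟩ ≠ 0 := by
    intro A
    rw [← hbb]
    refine Finset.prod_ne_zero_iff.2 fun k _ => ?_
    rw [hxx, map_mul]
    exact mul_ne_zero (hlin _) (hlin _)
  refine ⟨?_, ?_, ?_⟩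
  · intro A B hAB
    obtain ⟨X₀, Y₀, Z₀, W₀, dX, dY, dZ, dW, e1, e2, hZ⟩ := exist A B hAB
    have hZ0 : ψ ⟨Z₀, dZ⟩ ≠ 0 := by
      intro h0
      rw [← map_zero ψ] at h0
      exact hZ (congrArg Subtype.val (hψ h0))
    have r1 : ψ ⟨X₀, dX⟩ ^ 2 = ψ ⟨bb A, bb_differentiable A⟩ *
        (2 * ψ ⟨W₀, dW⟩ ^ 2 - ψ ⟨Z₀, dZ⟩ ^ 2) := by
      rw [← map_ofNat ψ 2, ← map_pow, ← map_pow, ← map_pow, ← map_mul, ← map_sub, ← map_mul]
      congr 1
      ext z
      exact e1 z
    have r2 : ψ ⟨Y₀, dY⟩ ^ 2 = ψ ⟨bb (B \ A), bb_differentiable (B \ A)⟩ *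
        (ψ ⟨Z₀, dZ⟩ ^ 2 - ψ ⟨W₀, dW⟩ ^ 2) := by
      rw [← map_pow, ← map_pow, ← map_pow, ← map_sub, ← map_mul]
      congr 1
      ext z
      exact e2 z
    have hB : ψ ⟨bb B, bb_differentiable B⟩ = ψ ⟨bb (B \ A), bb_differentiable (B \ A)⟩ *
        ψ ⟨bb A, bb_differentiable A⟩ := by
      rw [← hbb, ← hbb, ← hbb, Finset.prod_sdiff hAB]
    rw [hbb, hbb, hB]
    set a := ψ ⟨bb A, bb_differentiable A⟩
    set b := ψ ⟨bb (B \ A), bb_differentiable (B \ A)⟩
    have ha : a ≠ 0 := hbb0 A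
    have hb : b ≠ 0 := hbb0 _
    refine ⟨ψ ⟨X₀, dX⟩ / a, ψ ⟨Y₀, dY⟩ / (a * b), ψ ⟨Z₀, dZ⟩, ψ ⟨W₀, dW⟩,
      fun h0 => hZ0 h0.1, ?_, ?_⟩
    · rw [div_pow, r1]
      field_simp
    · rw [div_pow, r2]
      field_simp
  · intro k
    rw [hxx, map_mul]
    exact mul_ne_zero (hlin _) (hlin _)
  · intro k hk
    obtain ⟨v, hv1, hv2⟩ := hv _ (hcV (2 * k))
    set d := c (2 * k) with hd
    have hd0 : φ (lin d) ≠ 0 := by
      intro h0
      rw [← map_zero φ] at h0
      have := congrFun (congrArg Subtype.val (hφ h0)) (d + 1)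
      simp [lin] at this
    -- the image of `z - a`
    have hcl : ∀ a : ℂ, ψ (lin a) = φ (pol (h - C a)) := by
      intro a
      show φ (cmp (lin a)) = _
      congr 1
      ext z
      simp [cmp, lin, pol]
    have hev : ∀ a : ℂ, a ≠ (2 * k : ℕ) → v.ord (ψ (lin a)) = 0 := by
      intro a ha
      rw [hcl]
      refine (ord_pol_zero φ v hd0 hv1 _ ?_).2
      rw [eval_sub, eval_C, (hh (2 * k) (by omega)).1, sub_ne_zero]
      exact fun h => ha h.symm
    have hod : Odd (v.ord (ψ (lin (2 * k : ℕ)))) := by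
      rw [hcl]
      obtain ⟨g, hg⟩ : (X - C d) ∣ (h - C ((2 * k : ℕ) : ℂ)) := by
        rw [dvd_iff_isRoot, IsRoot, eval_sub, eval_C, (hh (2 * k) (by omega)).1, sub_self]
      have hg1 : g.eval d ≠ 0 := by
        have h1 := congrArg (fun p => (derivative p).eval d) hg
        simp only [derivative_sub, derivative_C, sub_zero, derivative_mul, derivative_X, one_mul,
          eval_add, eval_mul, eval_sub, eval_X, eval_C, sub_self, zero_mul, add_zero] at h1
        have h2 := (hh (2 * k) (by omega)).2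
        rw [← hd, h1] at h2
        rw [h2]
        exact one_ne_zero
      obtain ⟨hg2, hg3⟩ := ord_pol_zero φ v hd0 hv1 g hg1
      rw [hg, map_mul, map_mul, pol_X_sub_C, v.mul _ _ hd0 hg2, hg3, add_zero]
      exact hv2
    refine ⟨v, ?_, fun j hj hjk => ?_⟩
    · rw [hxx, map_mul, v.mul _ _ (hlin _) (hlin _), hev ((2 * k + 1 : ℕ) : ℂ), add_zero]
      · exact hod
      · intro h0
        have := Nat.cast_injective h0
        omega
    · rw [hxx, map_mul, v.mul _ _ (hlin _) (hlin _), hev ((2 * j + 1 : ℕ) : ℂ),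
        hev ((2 * j : ℕ) : ℂ)]
      · simp
      · intro h0
        have := Nat.cast_injective h0
        omega
      · intro h0
        have := Nat.cast_injective h0
        omega

include hφ in
/-- the main theorem: infinitely many discrete orders with `z - c` of odd order -/
theorem not_tame_of_places [FirstOrder.Ring.CompatibleRing K]
    (hinf : {c : ℂ | ∃ v : OrdFn K, 0 < v.ord (φ (lin c)) ∧ Odd (v.ord (φ (lin c)))}.Infinite) :
    ¬ Tame K :=
  not_tame (good_of_places φ hφ _ hinf fun _ h => h)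

end

end Pool.Agent.J4.H15.MF
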