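import Mathlib
import Pool.Agent.J4.H15.MF.Newton
import Pool.Agent.J4.H15.MF.Places

/-!
# Rings of functions
-/

set_option autoImplicit false

namespace Pool.Agent.J4.H15.MF

open Filter Topology

/-- `h` has order `n` along the filter `l`, with respect to the function `t`: the quotient
`h / t ^ n` has a nonzero limit along `l`. -/
def HasOrder {X : Type} (l : Filter X) (t h : X → ℂ) (n : ℕ) : Prop :=
  ∃ a : ℂ, a ≠ 0 ∧ Tendsto (fun x => h x / t x ^ n) l (𝓝 a)

/-- The filter `l` and the function `t` define a place of the ring `R` of functions: `t` tends to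
zero along `l`, is eventually nonzero, and all nonzero functions in `R` have an order. -/
structure IsPlace {X : Type} (R : Subring (X → ℂ)) (l : Filter X) (t : X → ℂ) : Prop where
  neBot : l.NeBot
  tendsto : Tendsto t l (𝓝 0)
  ne : ∀ᶠ x in l, t x ≠ 0
  order : ∀ h ∈ R, h ≠ 0 → ∃ n : ℕ, HasOrder l t h n

section

variable {X : Type} {R : Subring (X → ℂ)} {l : Filter X} {t : X → ℂ}

theorem IsPlace.pow (hp : IsPlace R l t) {h : X → ℂ} {n k : ℕ} {a : ℂ}
    (h1 : Tendsto (fun x => h x / t x ^ (n + k)) l (𝓝 a)) :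
    Tendsto (fun x => h x / t x ^ n) l (𝓝 (a * 0 ^ k)) := by
  have h2 := h1.mul (hp.tendsto.pow k)
  refine h2.congr' ?_
  filter_upwards [hp.ne] with x hx
  rw [pow_add]
  field_simp

theorem IsPlace.uniq (hp : IsPlace R l t) {h : X → ℂ} {n m : ℕ} (hn : HasOrder l t h n)
    (hm : HasOrder l t h m) : n = m := by
  haveI := hp.neBot
  have key : ∀ {n m : ℕ}, HasOrder l t h n → HasOrder l t h m → ¬ n < m := by
    rintro n m ⟨a, ha, h1⟩ ⟨b, hb, h2⟩ hlt
    obtain ⟨k, rfl⟩ := Nat.exists_eq_add_of_lt hlt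
    rw [add_assoc] at h2
    have h3 := tendsto_nhds_unique h1 (hp.pow h2)
    rw [zero_pow (by omega), mul_zero] at h3
    exact ha h3
  have h1 := key hn hm
  have h2 := key hm hn
  omega

theorem IsPlace.ne_zero (hp : IsPlace R l t) {h : X → ℂ} {n : ℕ} (hn : HasOrder l t h n) :
    h ≠ 0 := by
  haveI := hp.neBot
  rintro rfl
  obtain ⟨a, ha, h1⟩ := hn
  simp only [Pi.zero_apply, zero_div] at h1
  exact ha (tendsto_nhds_unique h1 tendsto_const_nhds)

theorem HasOrder.mul {g h : X → ℂ} {n m : ℕ} (hn : HasOrder l t g n) (hm : HasOrder l t h m) :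
    HasOrder l t (g * h) (n + m) := by
  obtain ⟨a, ha, h1⟩ := hn
  obtain ⟨b, hb, h2⟩ := hm
  refine ⟨a * b, mul_ne_zero ha hb, (h1.mul h2).congr fun x => ?_⟩
  rw [pow_add, Pi.mul_apply, mul_div_mul_comm]

/-- a function with a finite limit of `h / t ^ n` has order at least `n` -/
theorem IsPlace.le_of_tendsto (hp : IsPlace R l t) {h : X → ℂ} {n m : ℕ} {a : ℂ}
    (h1 : Tendsto (fun x => h x / t x ^ n) l (𝓝 a)) (hm : HasOrder l t h m) : n ≤ m := by
  haveI := hp.neBot
  by_contra hlt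
  obtain ⟨k, rfl⟩ := Nat.exists_eq_add_of_lt (not_le.1 hlt)
  rw [add_assoc] at h1
  obtain ⟨b, hb, h2⟩ := hm
  have h3 := tendsto_nhds_unique h2 (hp.pow h1)
  rw [zero_pow (by omega), mul_zero] at h3
  exact hb h3

theorem IsPlace.add (hp : IsPlace R l t) {g h : X → ℂ} {n m k : ℕ} (hn : HasOrder l t g n)
    (hm : HasOrder l t h m) (hk : HasOrder l t (g + h) k) : min n m ≤ k := by
  have key : ∀ {g h : X → ℂ} {n m : ℕ}, HasOrder l t g n → HasOrder l t h m →
      HasOrder l t (g + h) k → n ≤ m → n ≤ k := by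
    rintro g h n m ⟨a, ha, h1⟩ ⟨b, hb, h2⟩ hk hle
    obtain ⟨j, rfl⟩ := Nat.exists_eq_add_of_le hle
    have h3 := h1.add (hp.pow h2)
    refine hp.le_of_tendsto (h3.congr fun x => ?_) hk
    rw [Pi.add_apply, add_div]
  rcases le_total n m with h1 | h1
  · rw [min_eq_left h1]
    exact key hn hm hk h1
  · rw [min_eq_right h1]
    exact key hm hn (by rwa [add_comm]) h1

/-- the order of the fraction field -/
theorem IsPlace.exists_ord (hp : IsPlace R l t) {K : Type} [Field K] [Algebra R K]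
    [IsFractionRing R K] : ∃ v : OrdFn K,
      (∀ (h : R) (n : ℕ), HasOrder l t h n → v.ord (algebraMap R K h) = n) ∧
      ∀ (hC : ∀ a : ℂ, (fun _ => a) ∈ R) (x : K), v.Ge 0 x →
        ∃ a : ℂ, v.Ge 1 (x - algebraMap R K ⟨fun _ => a, hC a⟩) := by
  classical
  haveI : IsDomain R := (IsFractionRing.injective R K).isDomain (algebraMap R K)
  have h0 : ∀ r : R, r ≠ 0 → ∃ n : ℕ, HasOrder l t (r : X → ℂ) n := fun r hr =>
    hp.order r r.2 fun h => hr (Subtype.ext h)
  have hz : ∀ (r : R) (n : ℕ), HasOrder l t (r : X → ℂ) n → r ≠ 0 := by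
    rintro r n hn rfl
    exact hp.ne_zero hn rfl
  have h1 : ∀ r : R, ∃ n : ℕ, r ≠ 0 → HasOrder l t (r : X → ℂ) n := by
    intro r
    by_cases hr : r = 0
    · exact ⟨0, fun h => absurd hr h⟩
    · obtain ⟨n, hn⟩ := h0 r hr
      exact ⟨n, fun _ => hn⟩
  choose o ho using h1
  obtain ⟨v, hv⟩ := exists_ordFn (R := R) (K := K) (fun r => (o r : ℤ)) (by
    intro x y hx hy
    have := hp.uniq (ho _ (mul_ne_zero hx hy)) ((ho x hx).mul (ho y hy))
    exact_mod_cast this) (by
    intro x y hx hy hxy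
    have := hp.add (ho x hx) (ho y hy) (ho _ hxy)
    exact_mod_cast this)
  have hv' : ∀ (h : R) (n : ℕ), HasOrder l t h n → v.ord (algebraMap R K h) = n := by
    intro h n hn
    have hne := hz h n hn
    rw [hv h hne, hp.uniq (ho h hne) hn]
  refine ⟨v, hv', fun hC x hx => ?_⟩
  by_cases hx0 : x = 0
  · refine ⟨0, ?_⟩
    left
    have e : (⟨fun _ => 0, hC 0⟩ : R) = 0 := rfl
    rw [e, map_zero, hx0, sub_zero]
  obtain ⟨g, h, hh, hgh⟩ := IsFractionRing.div_surjective (A := R) x
  have hh0 : h ≠ 0 := nonZeroDivisors.ne_zero hh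
  have hg0 : g ≠ 0 := by
    rintro rfl
    rw [map_zero, zero_div] at hgh
    exact hx0 hgh.symm
  have hinj := IsFractionRing.injective R K
  have hh' : algebraMap R K h ≠ 0 := by rwa [Ne, map_eq_zero_iff _ hinj]
  have hg' : algebraMap R K g ≠ 0 := by rwa [Ne, map_eq_zero_iff _ hinj]
  obtain ⟨n, hn⟩ := h0 g hg0
  obtain ⟨m, hm⟩ := h0 h hh0
  have hord : v.ord x = n - m := by
    rw [← hgh, div_eq_mul_inv, v.mul _ _ hg' (inv_ne_zero hh'), v.inv hh', hv' _ _ hn,
      hv' _ _ hm]
    ring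
  have hge := hx.resolve_left hx0
  rw [hord] at hge
  rcases lt_or_eq_of_le (show m ≤ n by omega) with hlt | rfl
  · refine ⟨0, ?_⟩
    have e : (⟨fun _ => 0, hC 0⟩ : R) = 0 := rfl
    rw [e, map_zero, sub_zero]
    right
    rw [hord]
    omega
  · obtain ⟨a, ha, h2⟩ := hn
    obtain ⟨b, hb, h3⟩ := hm
    refine ⟨a / b, ?_⟩
    set c : R := ⟨fun _ => a / b, hC (a / b)⟩ with hc
    have e : x - algebraMap R K c = algebraMap R K (g - c * h) / algebraMap R K h := by
      rw [← hgh, map_sub, map_mul]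
      field_simp
    by_cases h4 : g - c * h = 0
    · left
      rw [e, h4, map_zero, zero_div]
    · right
      obtain ⟨k, hk⟩ := h0 _ h4
      have h5 : Tendsto (fun x => (g - c * h : R).1 x / t x ^ m) l (𝓝 0) := by
        have h6 := h2.sub (h3.const_mul (a / b))
        rw [div_mul_cancel₀ _ hb, sub_self] at h6
        refine h6.congr fun x => ?_
        show (g : X → ℂ) x / t x ^ m - a / b * ((h : X → ℂ) x / t x ^ m) =
          ((g : X → ℂ) x - a / b * (h : X → ℂ) x) / t x ^ m
        ring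
      have h7 := hp.le_of_tendsto h5 hk
      have h8 : k ≠ m := by
        rintro rfl
        obtain ⟨d, hd, h9⟩ := hk
        haveI := hp.neBot
        exact hd (tendsto_nhds_unique h9 h5)
      have h9 : algebraMap R K (g - c * h) ≠ 0 := by rwa [Ne, map_eq_zero_iff _ hinj]
      rw [e, div_eq_mul_inv, v.mul _ _ h9 (inv_ne_zero hh'), v.inv hh', hv' _ _ hk,
        hv' h m ⟨b, hb, h3⟩]
      omega

/-- the ring homomorphism from the entire functions -/
def compHom (R : Subring (X → ℂ)) (f : X → ℂ)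
    (hf : ∀ F : ℂ → ℂ, Differentiable ℂ F → (fun x => F (f x)) ∈ R) : Ent →+* R where
  toFun F := ⟨fun x => F.1 (f x), hf F.1 F.2⟩
  map_one' := rfl
  map_mul' _ _ := rfl
  map_zero' := rfl
  map_add' _ _ := rfl

/-- an entire function which vanishes at the values of `f` is zero -/
theorem compHom_injective (f : X → ℂ)
    (hf : ∀ F : ℂ → ℂ, Differentiable ℂ F → (fun x => F (f x)) ∈ R)
    {c : ℂ} (hp : IsPlace R l t) {n : ℕ} (hn : n ≠ 0) (hc : HasOrder l t (fun x => f x - c) n) :
    Function.Injective (compHom R f hf) := by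
  rw [injective_iff_map_eq_zero]
  intro F hF
  by_contra hne
  -- `f` tends to `c` and is eventually different from `c`
  haveI := hp.neBot
  obtain ⟨a, ha, h1⟩ := hc
  have h2 : Tendsto (fun x => f x - c) l (𝓝 0) := by
    have h3 := h1.mul (hp.tendsto.pow n)
    rw [zero_pow hn, mul_zero] at h3
    refine h3.congr' ?_
    filter_upwards [hp.ne] with x hx
    field_simp
  have h4 : Tendsto f l (𝓝 c) := by
    have := h2.add_const c
    simpa using this
  have h5 : ∀ᶠ x in l, f x ≠ c := by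
    have h6 := h1.eventually_ne ha
    filter_upwards [h6] with x hx hxc
    apply hx
    rw [hxc, sub_self, zero_div]
  have h7 : Tendsto f l (𝓝[≠] c) := tendsto_nhdsWithin_iff.2 ⟨h4, h5⟩
  have h8 : ∀ x, F.1 (f x) = 0 := fun x => congrFun (congrArg Subtype.val hF) x
  have hF2 : AnalyticAt ℂ F.1 c := Differentiable.analyticAt F.2 c
  rcases hF2.eventually_eq_zero_or_eventually_ne_zero with h9 | h9
  · apply hne
    have h10 : AnalyticOnNhd ℂ F.1 Set.univ := fun z _ => Differentiable.analyticAt F.2 z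
    ext z
    exact h10.eqOn_zero_of_preconnected_of_eventuallyEq_zero isPreconnected_univ (Set.mem_univ c) h9
      (Set.mem_univ z)
  · obtain ⟨x, hx⟩ := (h7.eventually h9).exists
    exact hx (h8 x)

end

end Pool.Agent.J4.H15.MF
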