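import Mathlib
import Pool.Agent.J4.H15.MF.Fun
import Pool.Agent.Results.MP_3554b5_lc.FunctionFields

/-!
# Finitely generated extensions of the fraction fields of rings of functions
-/

set_option autoImplicit false

namespace Pool.Agent.J4.H15.MF

open Filter Topology Polynomial

/-- fraction fields of rings of functions -/
theorem not_tame_of_ring {X : Type} {R : Subring (X → ℂ)} (f : X → ℂ)
    (hf : ∀ F : ℂ → ℂ, Differentiable ℂ F → (fun x => F (f x)) ∈ R)
    (hV : {c : ℂ | ∃ (l : Filter X) (t : X → ℂ), IsPlace R l t ∧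
      ∃ n : ℕ, Odd n ∧ HasOrder l t (fun x => f x - c) n}.Infinite)
    {K : Type} [Field K] [FirstOrder.Ring.CompatibleRing K] [Algebra R K] [IsFractionRing R K] :
    ¬ Tame K := by
  obtain ⟨c₀, l₀, t₀, hp₀, n₀, hn₀, hc₀⟩ := hV.nonempty
  have hinj : Function.Injective ((algebraMap R K).comp (compHom R f hf)) :=
    (IsFractionRing.injective R K).comp
      (compHom_injective f hf hp₀ (by rintro rfl; simp at hn₀) hc₀)
  refine not_tame_of_places _ hinj (hV.mono ?_)
  rintro c ⟨l, t, hp, n, hn, hc⟩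
  obtain ⟨v, hv, -⟩ := hp.exists_ord (K := K)
  have h1 : v.ord (((algebraMap R K).comp (compHom R f hf)) (lin c)) = n := hv _ _ hc
  refine ⟨v, ?_, ?_⟩
  · rw [h1]
    have : 0 < n := hn.pos
    exact_mod_cast this
  · rw [h1]
    exact_mod_cast hn

/-- finitely generated extensions -/
theorem not_tame_of_fg {X : Type} {R : Subring (X → ℂ)} (f : X → ℂ)
    (hf : ∀ F : ℂ → ℂ, Differentiable ℂ F → (fun x => F (f x)) ∈ R)
    (V : Set ℂ) (hV : ¬ V.Countable) (l : ℂ → Filter X) (t : ℂ → X → ℂ)
    (hp : ∀ c ∈ V, IsPlace R (l c) (t c) ∧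
      ∃ n : ℕ, Odd n ∧ HasOrder (l c) (t c) (fun x => f x - c) n)
    (hc : ∀ h ∈ R, h ≠ 0 → {c ∈ V | ¬ HasOrder (l c) (t c) h 0}.Countable)
    {F : Type} [Field F] [Algebra R F] [IsFractionRing R F]
    {K : Type} [Field K] [FirstOrder.Ring.CompatibleRing K] [Algebra F K]
    (hfg : (⊤ : IntermediateField F K).FG) : ¬ Tame K := by
  classical
  intro hK
  have hconst : ∀ a : ℂ, (fun _ => a) ∈ R := fun a => hf (fun _ => a) (differentiable_const a)
  have hone : ∀ c ∈ V, ∃ v : OrdFn F,
      (∀ (h : R) (n : ℕ), HasOrder (l c) (t c) h n → v.ord (algebraMap R F h) = n) ∧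
      ∀ (hC : ∀ a : ℂ, (fun _ => a) ∈ R) (x : F), v.Ge 0 x →
        ∃ a : ℂ, v.Ge 1 (x - algebraMap R F ⟨fun _ => a, hC a⟩) :=
    fun c hcV => (hp c hcV).1.exists_ord (K := F)
  let v₀ : OrdFn F := ⟨fun _ => 0, by simp, by simp⟩
  have hone' : ∀ c : ℂ, ∃ v : OrdFn F, c ∈ V →
      (∀ (h : R) (n : ℕ), HasOrder (l c) (t c) h n → v.ord (algebraMap R F h) = n) ∧
      ∀ (hC : ∀ a : ℂ, (fun _ => a) ∈ R) (x : F), v.Ge 0 x →
        ∃ a : ℂ, v.Ge 1 (x - algebraMap R F ⟨fun _ => a, hC a⟩) := by
    intro c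
    by_cases hcV : c ∈ V
    · obtain ⟨v, hv⟩ := hone c hcV
      exact ⟨v, fun _ => hv⟩
    · exact ⟨v₀, fun h => absurd h hcV⟩
  choose v hv using hone'
  have hne : V.Nonempty := by
    rw [Set.nonempty_iff_ne_empty]
    rintro rfl
    exact hV Set.countable_empty
  obtain ⟨c₀, hc₀⟩ := hne
  obtain ⟨hp₀, n₀, hn₀, ho₀⟩ := hp c₀ hc₀
  have hinj : Function.Injective ((algebraMap R F).comp (compHom R f hf)) :=
    (IsFractionRing.injective R F).comp
      (compHom_injective f hf hp₀ (by rintro rfl; simp at hn₀) ho₀)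
  -- constants
  let ι : ℂ →+* F := (algebraMap R F).comp
    { toFun := fun a => ⟨fun _ => a, hconst a⟩
      map_one' := rfl
      map_mul' := fun _ _ => rfl
      map_zero' := rfl
      map_add' := fun _ _ => rfl }
  have : CharZero F := charZero_of_injective_ringHom ι.injective
  have : IsDomain R := (IsFractionRing.injective R F).isDomain (algebraMap R F)
  rcases Results.MP_3554b5_lc.FunctionFields.result K hK K
      rfl ⊤ K
      (⊤ : ValuationSubring K).subtype (fun x => ⟨⟨x, trivial⟩, rfl⟩) F hfg with hfin | ⟨-, hsep⟩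
  · -- finite extensions
    obtain ⟨s, hs0, hs⟩ := exists_unram (K := F) (L := K) ι
    have hbad : ∀ x : F, x ≠ 0 → {c ∈ V | (v c).ord x ≠ 0}.Countable := by
      intro x hx
      obtain ⟨g, h, hh, hgh⟩ := IsFractionRing.div_surjective (A := R) x
      have hh0 : h ≠ 0 := nonZeroDivisors.ne_zero hh
      have hg0 : g ≠ 0 := by
        rintro rfl
        rw [map_zero, zero_div] at hgh
        exact hx hgh.symm
      have hinj := IsFractionRing.injective R F
      have hh' : algebraMap R F h ≠ 0 := by rwa [Ne, map_eq_zero_iff _ hinj]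
      have hg' : algebraMap R F g ≠ 0 := by rwa [Ne, map_eq_zero_iff _ hinj]
      refine ((hc g g.2 fun h => hg0 (Subtype.ext h)).union
        (hc h h.2 fun h => hh0 (Subtype.ext h))).mono ?_
      rintro c ⟨hcV, hcx⟩
      by_contra hcon
      simp only [Set.mem_union, Set.mem_ofPred_eq, not_or, not_and, not_not] at hcon
      apply hcx
      rw [← hgh, div_eq_mul_inv, (v c).mul _ _ hg' (inv_ne_zero hh'), (v c).inv hh',
        (hv c hcV).1 g 0 (hcon.1 hcV), (hv c hcV).1 h 0 (hcon.2 hcV)]
      simp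
    have hB : (⋃ x ∈ s, {c ∈ V | (v c).ord x ≠ 0}).Countable :=
      s.countable_toSet.biUnion fun x hx => hbad x (hs0 x hx)
    have hV' : (V \ ⋃ x ∈ s, {c ∈ V | (v c).ord x ≠ 0}).Infinite := by
      intro hfi
      apply hV
      refine (hfi.countable.union hB).mono ?_
      intro c hcV
      by_cases h1 : c ∈ ⋃ x ∈ s, {c ∈ V | (v c).ord x ≠ 0}
      · exact Or.inr h1
      · exact Or.inl ⟨hcV, h1⟩
    refine not_tame_of_places ((algebraMap F K).comp ((algebraMap R F).comp (compHom R f hf)))
      ((algebraMap F K).injective.comp hinj) (hV'.mono ?_) hK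
    rintro c ⟨hcV, hcB⟩
    obtain ⟨n, hn, ho⟩ := (hp c hcV).2
    have hcs : ∀ x ∈ s, (v c).ord x = 0 := by
      intro x hx
      by_contra h1
      apply hcB
      simp only [Set.mem_iUnion]
      exact ⟨x, hx, hcV, h1⟩
    have h1 : (v c).ord ((algebraMap R F) (compHom R f hf (lin c))) = n := (hv c hcV).1 _ _ ho
    obtain ⟨w, hw⟩ := hs (v c) (fun a => by
        by_cases ha : a = 0
        · left; rw [ha, map_zero]
        · right
          have : HasOrder (l c) (t c) (fun _ => a) 0 := ⟨a, ha, by simpa using tendsto_const_nhds⟩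
          exact ((hv c hcV).1 ⟨fun _ => a, hconst a⟩ 0 this).ge)
      (fun x hx => (hv c hcV).2 hconst x hx) hcs
    have h2 : w.ord (((algebraMap F K).comp ((algebraMap R F).comp (compHom R f hf))) (lin c)) =
        n := by
      show w.ord (algebraMap F K ((algebraMap R F) (compHom R f hf (lin c)))) = n
      rw [hw, h1]
      intro h0
      have h3 : ((algebraMap R F).comp (compHom R f hf)) (lin c) = 0 := h0
      rw [← map_zero ((algebraMap R F).comp (compHom R f hf))] at h3
      have h4 := congrFun (congrArg Subtype.val (hinj h3)) (c + 1)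
      simp [lin] at h4
    refine ⟨w, ?_, ?_⟩
    · rw [h2]
      have : 0 < n := hn.pos
      exact_mod_cast this
    · rw [h2]
      exact_mod_cast hn
  · -- infinitely many cyclic extensions
    have h1 : (v c₀).ord ((algebraMap R F) (compHom R f hf (lin c₀))) = n₀ := (hv c₀ hc₀).1 _ _ ho₀
    set x := (algebraMap R F) (compHom R f hf (lin c₀)) with hx
    obtain ⟨p, hp1, hp2⟩ := Nat.exists_infinite_primes
      (max n₀ (Module.finrank F (SeparableClosure F)) + 1)
    have hx0 : x ≠ 0 := by
      intro h0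
      have h3 : ((algebraMap R F).comp (compHom R f hf)) (lin c₀) = 0 := h0
      rw [← map_zero ((algebraMap R F).comp (compHom R f hf))] at h3
      have h4 := congrFun (congrArg Subtype.val (hinj h3)) (c₀ + 1)
      simp [lin] at h4
    have hirr : Irreducible (Polynomial.X ^ p - C x : F[X]) := by
      apply X_pow_sub_C_irreducible_of_prime hp2
      intro b hb
      have hb0 : b ≠ 0 := by
        rintro rfl
        rw [zero_pow hp2.ne_zero] at hb
        exact hx0 hb.symm
      have h5 := (v c₀).pow hb0 p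
      rw [hb, h1] at h5
      have h6 : (p : ℤ) ∣ n₀ := ⟨_, h5⟩
      have h7 : p ∣ n₀ := by exact_mod_cast h6
      have h8 := Nat.le_of_dvd hn₀.pos h7
      have h9 := le_max_left n₀ (Module.finrank F (SeparableClosure F))
      omega
    obtain ⟨y, hy⟩ := IsSepClosed.exists_aeval_eq_zero (SeparableClosure F) (Polynomial.X ^ p - C x : F[X])
      (by rw [degree_X_pow_sub_C hp2.pos]; exact_mod_cast hp2.ne_zero) hirr.separable
    have h10 : minpoly F y = Polynomial.X ^ p - C x :=
      (minpoly.eq_of_irreducible_of_monic hirr hy (monic_X_pow_sub_C x hp2.ne_zero)).symm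
    have h11 := minpoly.natDegree_le (A := F) y
    rw [h10, natDegree_X_pow_sub_C] at h11
    have h9 := le_max_right n₀ (Module.finrank F (SeparableClosure F))
    omega

end Pool.Agent.J4.H15.MF
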