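import Mathlib
import Pool.Agent.J4.H15.MF.FG

/-!
# Analytic functions on connected open subsets of `ℂ` and of `ℝ`
-/

set_option autoImplicit false

namespace Pool.Agent.J4.H15.MF

open Filter Topology

/-- The ring of complex-valued functions on `D` which are analytic at all points of `D`. -/
def AnalyticRing (𝕜 : Type) [NontriviallyNormedField 𝕜] [NormedAlgebra 𝕜 ℂ] (D : Set 𝕜) :
    Subring (D → ℂ) where
  carrier := {h | ∃ g : 𝕜 → ℂ, AnalyticOnNhd 𝕜 g D ∧ ∀ x : D, h x = g x}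
  mul_mem' := by
    rintro a b ⟨g, hg, h1⟩ ⟨g', hg', h2⟩
    exact ⟨fun x => g x * g' x, fun x hx => (hg x hx).mul (hg' x hx), fun x => by
      rw [Pi.mul_apply, h1, h2]⟩
  one_mem' := ⟨fun _ => 1, fun _ _ => analyticAt_const, fun _ => rfl⟩
  add_mem' := by
    rintro a b ⟨g, hg, h1⟩ ⟨g', hg', h2⟩
    exact ⟨fun x => g x + g' x, fun x hx => (hg x hx).add (hg' x hx), fun x => by
      rw [Pi.add_apply, h1, h2]⟩
  zero_mem' := ⟨fun _ => 0, fun _ _ => analyticAt_const, fun _ => rfl⟩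
  neg_mem' := by
    rintro a ⟨g, hg, h1⟩
    exact ⟨fun x => - g x, fun x hx => (hg x hx).neg, fun x => by rw [Pi.neg_apply, h1]⟩

section

variable {𝕜 : Type} [NontriviallyNormedField 𝕜] [NormedAlgebra 𝕜 ℂ] {D : Set 𝕜}

/-- the filter of a point -/
def pt (D : Set 𝕜) (x : 𝕜) : Filter D := comap (fun y : D => (y : 𝕜)) (𝓝[≠] x)

theorem tendsto_pt {g : 𝕜 → ℂ} {x : 𝕜} {a : ℂ} (h : Tendsto g (𝓝[≠] x) (𝓝 a)) :
    Tendsto (fun y : D => g y) (pt D x) (𝓝 a) := h.comp tendsto_comap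

theorem pt_neBot (hD : IsOpen D) {x : 𝕜} (hx : x ∈ D) : (pt D x).NeBot := by
  unfold pt
  rw [comap_neBot_iff]
  intro t ht
  have h1 : t ∩ D ∈ 𝓝[≠] x := inter_mem ht (mem_nhdsWithin_of_mem_nhds (hD.mem_nhds hx))
  obtain ⟨y, hy⟩ := (inferInstance : (𝓝[≠] x).NeBot).nonempty_of_mem h1
  exact ⟨⟨y, hy.2⟩, hy.1⟩

theorem algebraMap_sub_ne {x y : 𝕜} (h : y ≠ x) : algebraMap 𝕜 ℂ y - algebraMap 𝕜 ℂ x ≠ 0 := by
  rw [sub_ne_zero]
  exact fun h1 => h ((algebraMap 𝕜 ℂ).injective h1)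

theorem hasOrder_pt {g : 𝕜 → ℂ} {x : 𝕜} (hg : AnalyticAt 𝕜 g x)
    (h0 : ¬ ∀ᶠ z in 𝓝 x, g z = 0) :
    ∃ n, HasOrder (pt D x) (fun y : D => algebraMap 𝕜 ℂ y - algebraMap 𝕜 ℂ x)
      (fun y : D => g y) n := by
  obtain ⟨n, k, hk, hk0, he⟩ := hg.exists_eventuallyEq_pow_smul_nonzero_iff.2 h0
  refine ⟨n, k x, hk0, ?_⟩
  have h1 : Tendsto (fun y : 𝕜 => g y / (algebraMap 𝕜 ℂ y - algebraMap 𝕜 ℂ x) ^ n) (𝓝[≠] x)
      (𝓝 (k x)) := by
    refine (hk.continuousAt.tendsto.mono_left nhdsWithin_le_nhds).congr' ?_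
    filter_upwards [mem_nhdsWithin_of_mem_nhds he, self_mem_nhdsWithin] with y hy hyx
    have h2 := algebraMap_sub_ne (𝕜 := 𝕜) hyx
    rw [hy, Algebra.smul_def, map_pow, map_sub]
    field_simp
  exact tendsto_pt h1

theorem hasOrder_zero {g : 𝕜 → ℂ} {x : 𝕜} (hg : AnalyticAt 𝕜 g x) (h0 : g x ≠ 0) :
    HasOrder (pt D x) (fun y : D => algebraMap 𝕜 ℂ y - algebraMap 𝕜 ℂ x)
      (fun y : D => g y) 0 := by
  refine ⟨g x, h0, ?_⟩
  simp only [pow_zero, div_one]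
  exact tendsto_pt (hg.continuousAt.tendsto.mono_left nhdsWithin_le_nhds)

theorem countable_zeros [SecondCountableTopology 𝕜] {g : 𝕜 → ℂ}
    (h : ∀ x ∈ D, ∀ᶠ z in 𝓝[≠] x, g z ≠ 0) : {x ∈ D | g x = 0}.Countable := by
  have h1 : DiscreteTopology {x ∈ D | g x = 0} := by
    rw [discreteTopology_subtype_iff]
    rintro x ⟨hx, -⟩
    rw [← disjoint_iff, disjoint_principal_right]
    filter_upwards [h x hx] with y hy hy2
    exact hy hy2.2
  exact (HereditarilyLindelofSpace.isLindelof _).countable h1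

/-- finitely generated extensions of the fraction field of the ring of analytic functions -/
theorem not_tame_an [SecondCountableTopology 𝕜] [CompleteSpace 𝕜] (hD : IsOpen D)
    (hconn : IsConnected D) (hunc : ¬ D.Countable)
    {F : Type} [Field F] [Algebra (AnalyticRing 𝕜 D) F] [IsFractionRing (AnalyticRing 𝕜 D) F]
    {K : Type} [Field K] [FirstOrder.Ring.CompatibleRing K] [Algebra F K]
    (hfg : (⊤ : IntermediateField F K).FG) : ¬ Tame K := by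
  classical
  let τ : ℂ → 𝕜 := fun c => if h : ∃ x : 𝕜, algebraMap 𝕜 ℂ x = c then h.choose else 0
  have hτ : ∀ x : 𝕜, τ (algebraMap 𝕜 ℂ x) = x := by
    intro x
    have h : ∃ y : 𝕜, algebraMap 𝕜 ℂ y = algebraMap 𝕜 ℂ x := ⟨x, rfl⟩
    have h1 : τ (algebraMap 𝕜 ℂ x) = h.choose := dif_pos h
    rw [h1]
    exact (algebraMap 𝕜 ℂ).injective h.choose_spec
  -- nonzero functions do not vanish locally
  have hne : ∀ h ∈ AnalyticRing 𝕜 D, h ≠ 0 → ∀ g : 𝕜 → ℂ, AnalyticOnNhd 𝕜 g D →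
      (∀ x : D, h x = g x) → ∀ x ∈ D, ¬ ∀ᶠ z in 𝓝 x, g z = 0 := by
    intro h _ h0 g hg hgh x hx hev
    apply h0
    ext y
    rw [hgh y]
    exact hg.eqOn_zero_of_preconnected_of_eventuallyEq_zero hconn.isPreconnected hx hev y.2
  refine not_tame_of_fg (R := AnalyticRing 𝕜 D) (F := F) (fun y : D => algebraMap 𝕜 ℂ y)
    ?_ (algebraMap 𝕜 ℂ '' D) ?_ (fun c => pt D (τ c))
    (fun c => fun y : D => algebraMap 𝕜 ℂ y - algebraMap 𝕜 ℂ (τ c)) ?_ ?_ hfg
  · intro G hG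
    refine ⟨fun x => G (algebraMap 𝕜 ℂ x), fun x _ => ?_, fun _ => rfl⟩
    have h1 : AnalyticAt ℂ G (algebraMap 𝕜 ℂ x) := hG.analyticAt _
    have h2 : AnalyticAt 𝕜 G (algebraMap 𝕜 ℂ x) := h1.restrictScalars
    have h3 : AnalyticAt 𝕜 (fun x : 𝕜 => algebraMap 𝕜 ℂ x) x :=
      (Algebra.linearMap 𝕜 ℂ).mkContinuous ‖(1 : ℂ)‖ (fun x => by
        simp) |>.analyticAt x
    exact h2.comp h3
  · intro h
    apply hunc
    exact Set.countable_of_injective_of_countable_image (algebraMap 𝕜 ℂ).injective.injOn h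
  · rintro _ ⟨x, hx, rfl⟩
    simp only [hτ]
    have hT : Tendsto (fun y : 𝕜 => algebraMap 𝕜 ℂ y - algebraMap 𝕜 ℂ x) (𝓝 x) (𝓝 0) := by
      have h1 : Continuous (fun y : 𝕜 => algebraMap 𝕜 ℂ y - algebraMap 𝕜 ℂ x) :=
        (continuous_algebraMap 𝕜 ℂ).sub continuous_const
      have h2 := h1.tendsto x
      rwa [sub_self] at h2
    have hE : ∀ᶠ y : D in pt D x, algebraMap 𝕜 ℂ (y : 𝕜) - algebraMap 𝕜 ℂ x ≠ 0 := by
      have h1 : ∀ᶠ y in 𝓝[≠] x, algebraMap 𝕜 ℂ (y : 𝕜) - algebraMap 𝕜 ℂ x ≠ 0 := by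
        filter_upwards [self_mem_nhdsWithin] with y hy
        exact algebraMap_sub_ne hy
      exact tendsto_comap.eventually h1
    refine ⟨⟨pt_neBot hD hx, tendsto_pt (hT.mono_left nhdsWithin_le_nhds), hE, ?_⟩, 1, odd_one,
      1, one_ne_zero, ?_⟩
    · intro h hh h0
      obtain ⟨g, hg, hgh⟩ := hh
      obtain ⟨n, hn⟩ := hasOrder_pt (D := D) (hg x hx) (hne h ⟨g, hg, hgh⟩ h0 g hg hgh x hx)
      refine ⟨n, ?_⟩
      have : h = fun y : D => g y := funext hgh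
      rw [this]
      exact hn
    · refine tendsto_const_nhds.congr' ?_
      filter_upwards [hE] with y hy
      rw [pow_one, div_self hy]
  · intro h hh h0
    obtain ⟨g, hg, hgh⟩ := hh
    have h1 : {x ∈ D | g x = 0}.Countable := by
      apply countable_zeros
      intro x hx
      exact (hg x hx).eventually_eq_zero_or_eventually_ne_zero.resolve_left
        (hne h ⟨g, hg, hgh⟩ h0 g hg hgh x hx)
    refine (h1.image (algebraMap 𝕜 ℂ)).mono ?_
    rintro _ ⟨⟨x, hx, rfl⟩, h2⟩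
    refine ⟨x, ⟨hx, ?_⟩, rfl⟩
    by_contra h3
    apply h2
    simp only [hτ]
    have : h = fun y : D => g y := funext hgh
    rw [this]
    exact hasOrder_zero (hg x hx) h3

end

theorem not_countable_of_isOpen {D : Set ℂ} (hD : IsOpen D) (hne : D.Nonempty) :
    ¬ D.Countable := by
  intro h
  have h1 : Dense Dᶜ := h.dense_compl ℝ
  obtain ⟨x, hx, hx2⟩ := h1.inter_open_nonempty D hD hne
  exact hx2 hx

theorem not_countable_of_isOpen_real {D : Set ℝ} (hD : IsOpen D) (hne : D.Nonempty) :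
    ¬ D.Countable := by
  intro h
  have h1 : Dense Dᶜ := h.dense_compl ℝ
  obtain ⟨x, hx, hx2⟩ := h1.inter_open_nonempty D hD hne
  exact hx2 hx

end Pool.Agent.J4.H15.MF
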